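import Mathlib
import Pool.Agent.Lib_helper57.INL.Chk
import Pool.Agent.Lib_helper57.INL.C7

/-!
# The two representations of the word algebra
-/

set_option autoImplicit false
set_option linter.unusedSectionVars false
set_option linter.unusedSimpArgs false

open scoped Kronecker ComplexOrder

namespace Pool.Agent.Lib_helper57.INL

open Matrix Pool.Agent.Lib_helper98.Renyi

section

variable {n m : Type*} [Fintype n] [DecidableEq n] [Fintype m] [DecidableEq m]

/-- evaluation of a word -/
noncomputable def ev (A D : Matrix n n ℂ) : Wd → Matrix n n ℂ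
  | [] => 1
  | false :: w => A * ev A D w
  | true :: w => D * ev A D w

theorem ev_append (A D : Matrix n n ℂ) (v w : Wd) : ev A D (v ++ w) = ev A D v * ev A D w := by
  induction v with
  | nil => simp [ev]
  | cons a v ih => cases a <;> simp [ev, ih, Matrix.mul_assoc]

theorem ev_rev {A D : Matrix n n ℂ} (hA : A.IsHermitian) (hD : D.IsHermitian) (w : Wd) :
    ev A D w.reverse = (ev A D w)ᴴ := by
  induction w with
  | nil => simp [ev]
  | cons a w ih =>
    cases a <;> simp [ev, ih, ev_append, conjTranspose_mul, hA.eq, hD.eq]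

/-- real part of the trace, additive -/
noncomputable def rtH (n : Type*) [Fintype n] [DecidableEq n] : Matrix n n ℂ →+ ℝ where
  toFun := rt
  map_zero' := by simp [rt]
  map_add' := rt_add

theorem rtH_apply (M : Matrix n n ℂ) : rtH n M = rt M := rfl

theorem trace_ev_rot (A D : Matrix n n ℂ) (w : Wd) : trace (ev A D (rot w)) = trace (ev A D w) := by
  cases w with
  | nil => rfl
  | cons a w =>
    have : rot (a :: w) = w ++ [a] := rfl
    rw [this, ev_append, trace_mul_comm]
    have h2 : a :: w = [a] ++ w := rfl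
    rw [h2, ev_append]

/-- representation in the first system -/
noncomputable def E1 (A D : Matrix n n ℂ) (k : Ky) : Matrix n n ℂ := ev A D k.1

/-- representation in the tensor product -/
noncomputable def E2 (A D : Matrix n n ℂ) (A' D' : Matrix m m ℂ) (k : Ky) :
    Matrix (n × m) (n × m) ℂ := ev A D k.1 ⊗ₖ ev A' D' k.2

theorem rt_conjT (M : Matrix n n ℂ) : rt Mᴴ = rt M := by
  rw [rt, trace_conjTranspose, rt]
  simp

theorem rp1 {A D : Matrix n n ℂ} (hA : A.IsHermitian) (hD : D.IsHermitian) :
    Rp (E1 A D) (rtH n) where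
  one := rfl
  mul a b := ev_append _ _ _ _
  st a := by
    show ev A D a.1.reverse = star (ev A D a.1)
    rw [ev_rev hA hD, star_eq_conjTranspose]
  rot1 v w := by
    show rt (ev A D (rot v)) = rt (ev A D v)
    rw [rt, rt, trace_ev_rot]
  rot2 v w := rfl
  rev v w := by
    show rt (ev A D v.reverse) = rt (ev A D v)
    rw [ev_rev hA hD, rt_conjT]

theorem rp2 {A D : Matrix n n ℂ} {A' D' : Matrix m m ℂ} (hA : A.IsHermitian)
    (hD : D.IsHermitian) (hA' : A'.IsHermitian) (hD' : D'.IsHermitian) :
    Rp (E2 A D A' D') (rtH (n × m)) where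
  one := by
    show (1 : Matrix n n ℂ) ⊗ₖ (1 : Matrix m m ℂ) = 1
    exact one_kronecker_one
  mul a b := by
    show ev A D (a.1 ++ b.1) ⊗ₖ ev A' D' (a.2 ++ b.2) = _
    rw [ev_append, ev_append, mul_kronecker_mul]
    rfl
  st a := by
    show ev A D a.1.reverse ⊗ₖ ev A' D' a.2.reverse = star (ev A D a.1 ⊗ₖ ev A' D' a.2)
    rw [ev_rev hA hD, ev_rev hA' hD', star_eq_conjTranspose, conjTranspose_kronecker]
  rot1 v w := by
    show rt (ev A D (rot v) ⊗ₖ ev A' D' w) = rt (ev A D v ⊗ₖ ev A' D' w)
    rw [rt, rt, trace_kronecker, trace_kronecker, trace_ev_rot]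
  rot2 v w := by
    show rt (ev A D v ⊗ₖ ev A' D' (rot w)) = rt (ev A D v ⊗ₖ ev A' D' w)
    rw [rt, rt, trace_kronecker, trace_kronecker, trace_ev_rot]
  rev v w := by
    show rt (ev A D v.reverse ⊗ₖ ev A' D' w.reverse) = rt (ev A D v ⊗ₖ ev A' D' w)
    rw [ev_rev hA hD, ev_rev hA' hD', ← conjTranspose_kronecker, rt_conjT]

/-- positivity -/
theorem rt_pos {M : Matrix n n ℂ} (hM : M.PosSemidef) (y : Matrix n n ℂ) :
    0 ≤ rtH n (M * (star y * y)) := by
  rw [rtH_apply, star_eq_conjTranspose, ← Matrix.mul_assoc, rt_comm, ← Matrix.mul_assoc]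
  exact rt_nonneg (psd_conj hM y)

/-! Powers. -/

theorem mat_powL {R : Type*} [Ring R] [StarRing R] {E : Ky → R} {t : R →+ ℝ} (h : Rp E t)
    (p : Pl) (k : ℕ) : mat E (powL p k) = mat E p ^ k := by
  induction k with
  | zero => simp [powL, mat, h.one]
  | succ k ih => rw [powL, mat_mulL h, ih, pow_succ']

/-- multiple of a sum of words of the first system -/
def sumL (c : ℤ) (ws : List Wd) : Pl := ws.map fun w => (c, (w, []))

/-- sum of the traces of the words of length `k` with `j` letters `D` -/
noncomputable def Sj (A D : Matrix n n ℂ) (k j : ℕ) : ℝ :=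
  ((wds k j).map fun w => rt (ev A D w)).sum

theorem t_sumL (A D : Matrix n n ℂ) (c : ℤ) (ws : List Wd) :
    rtH n (mat (E1 A D) (sumL c ws)) = (c : ℝ) * (ws.map fun w => rt (ev A D w)).sum := by
  induction ws with
  | nil => simp [sumL, mat]
  | cons w ws ih =>
    have : sumL c (w :: ws) = (c, (w, [])) :: sumL c ws := rfl
    rw [this, mat, map_add, map_zsmul, ih, List.map_cons, List.sum_cons, zsmul_eq_mul, mul_add]
    rfl

/-- complex trace sum -/
noncomputable def cS (A D : Matrix n n ℂ) (ws : List Wd) : ℂ :=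
  (ws.map fun w => trace (ev A D w)).sum

theorem cS_re (A D : Matrix n n ℂ) (ws : List Wd) :
    (cS A D ws).re = (ws.map fun w => rt (ev A D w)).sum := by
  induction ws with
  | nil => simp [cS]
  | cons w ws ih =>
    have : cS A D (w :: ws) = trace (ev A D w) + cS A D ws := by simp [cS]
    rw [this, Complex.add_re, ih, List.map_cons, List.sum_cons, rt]

theorem mat_append' {R : Type*} [Ring R] (E : Ky → R) (p q : Pl) :
    mat E (p ++ q) = mat E p + mat E q := by
  induction p with
  | nil => simp [mat]
  | cons x p ih =>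
    obtain ⟨c, k⟩ := x
    simp [mat, ih, add_assoc]

theorem t_prodL (A D : Matrix n n ℂ) (A' D' : Matrix m m ℂ) (c : ℤ) (vs ws : List Wd) :
    rtH (n × m) (mat (E2 A D A' D') (prodL c vs ws)) = (c : ℝ) * (cS A D vs * cS A' D' ws).re := by
  induction vs with
  | nil => simp [prodL, mat, cS]
  | cons v vs ih =>
    have h1 : prodL c (v :: vs) ws = (ws.map fun w => (c, (v, w))) ++ prodL c vs ws := rfl
    have h2 : cS A D (v :: vs) = trace (ev A D v) + cS A D vs := by simp [cS]
    have h3 : ∀ ws : List Wd, rtH (n × m) (mat (E2 A D A' D') (ws.map fun w => (c, (v, w)))) =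
        (c : ℝ) * (trace (ev A D v) * cS A' D' ws).re := by
      intro ws
      induction ws with
      | nil => simp [mat, cS]
      | cons w ws ih =>
        have h4 : cS A' D' (w :: ws) = trace (ev A' D' w) + cS A' D' ws := by simp [cS]
        rw [List.map_cons, mat, map_add, map_zsmul, ih, h4, zsmul_eq_mul, mul_add, Complex.add_re,
          mul_add, rtH_apply, E2, rt, trace_kronecker]
    rw [h1, mat_append', map_add, ih, h3, h2, add_mul, Complex.add_re, mul_add]

/-! Reality of the complex sums. -/

/-- collection without normalisation -/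
def collect0 : Pl → Pl → Pl
  | [], acc => acc
  | (c, k) :: p, acc => collect0 p (ins c k acc)

theorem mat_ins {R : Type*} [Ring R] (E : Ky → R) (c : ℤ) (k : Ky) (p : Pl) :
    mat E (ins c k p) = c • E k + mat E p := by
  induction p with
  | nil => simp [ins, mat]
  | cons x p ih =>
    obtain ⟨d, l⟩ := x
    unfold ins
    rcases hb : (weq k.1 l.1 && weq k.2 l.2) with _ | _
    · simp only [cond_false, mat, ih]
      abel
    · rw [Bool.and_eq_true] at hb
      have : k = l := Prod.ext (weq_eq hb.1) (weq_eq hb.2)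
      subst this
      simp only [cond_true, mat, add_smul]
      abel

theorem mat_collect0 {R : Type*} [Ring R] (E : Ky → R) (p acc : Pl) :
    mat E (collect0 p acc) = mat E p + mat E acc := by
  induction p generalizing acc with
  | nil => simp [collect0, mat]
  | cons x p ih =>
    obtain ⟨c, k⟩ := x
    rw [collect0, ih, mat_ins, mat]
    abel

theorem mat_allZero {R : Type*} [Ring R] (E : Ky → R) {p : Pl} (h : allZero p = true) :
    mat E p = 0 := by
  induction p with
  | nil => rfl
  | cons x p ih =>
    obtain ⟨c, k⟩ := x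
    rw [allZero, Bool.and_eq_true, decide_eq_true_eq] at h
    rw [mat, h.1, ih h.2]
    simp

/-- check of an identity before symmetrisation -/
def chk0 (p : Pl) : Bool := allZero (collect0 p [])

theorem of_chk0 {R : Type*} [Ring R] (E : Ky → R) {p : Pl} (hp : chk0 p = true) :
    mat E p = 0 := by
  have := mat_collect0 E p []
  rw [mat_allZero E hp] at this
  simpa [mat] using this.symm

theorem trace_sumL (A D : Matrix n n ℂ) (ws : List Wd) :
    trace (mat (E1 A D) (sumL 1 ws)) = cS A D ws := by
  induction ws with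
  | nil => simp [sumL, mat, cS]
  | cons w ws ih =>
    have : sumL 1 (w :: ws) = (1, (w, [])) :: sumL 1 ws := rfl
    have h4 : cS A D (w :: ws) = trace (ev A D w) + cS A D ws := by simp [cS]
    rw [this, mat, trace_add, ih, h4, one_smul]
    rfl

theorem cS_im {A D : Matrix n n ℂ} (hA : A.IsHermitian) (hD : D.IsHermitian) {ws : List Wd}
    (h : chk0 (adjL (sumL 1 ws) ++ smulL (-1) (sumL 1 ws)) = true) : (cS A D ws).im = 0 := by
  have h1 := of_chk0 (E1 A D) h
  rw [mat_append', mat_adjL (rp1 hA hD), mat_smulL] at h1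
  have h2 : star (mat (E1 A D) (sumL 1 ws)) = mat (E1 A D) (sumL 1 ws) := by
    have h3 : star (mat (E1 A D) (sumL 1 ws)) - mat (E1 A D) (sumL 1 ws) = 0 := by
      rw [← h1]; simp [sub_eq_add_neg]
    exact sub_eq_zero.1 h3
  have h4 : star (cS A D ws) = cS A D ws := by
    rw [← trace_sumL, ← trace_conjTranspose, ← star_eq_conjTranspose, h2]
  have h5 := congrArg Complex.im h4
  simp at h5
  linarith

end

end Pool.Agent.Lib_helper57.INL
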