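import Mathlib
import Pool.Agent.Lib_helper57.INL.Fast

/-!
# Correctness of the faster checker
-/

set_option autoImplicit false
set_option linter.unusedSectionVars false
set_option linter.unusedSimpArgs false

namespace Pool.Agent.Lib_helper57.INL

open Polynomial

/-- Kronecker substitution is injective for small coefficients. -/
theorem kron_inj (B : ℤ) (hB : 0 < B) : ∀ (n : ℕ) (p : ℤ[X]), p.natDegree ≤ n →
    (∀ i, 2 * |p.coeff i| < B) → p.eval B = 0 → p = 0 := by
  intro n
  induction n with
  | zero =>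
    intro p hp _ h0
    rw [Polynomial.eq_C_of_natDegree_le_zero hp] at h0 ⊢
    rw [eval_C] at h0
    rw [h0, C_0]
  | succ n ih =>
    intro p hp hb h0
    have h1 : p = X * p.divX + C (p.coeff 0) := (X_mul_divX_add p).symm
    have h2 : B * p.divX.eval B + p.coeff 0 = 0 := by
      have := h0
      rw [h1] at this
      simpa using this
    have h3 : p.coeff 0 = 0 := by
      have hd : B ∣ p.coeff 0 := ⟨-p.divX.eval B, by linarith⟩
      by_contra hne
      have := Int.le_of_dvd (abs_pos.2 hne) ((dvd_abs _ _).2 hd)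
      have := hb 0
      have h5 : 0 ≤ |p.coeff 0| := abs_nonneg _
      linarith
    have h4 : p.divX = 0 := by
      apply ih
      · have := natDegree_divX_eq_natDegree_tsub_one (p := p)
        omega
      · intro i
        rw [coeff_divX]
        exact hb _
      · rw [h3, add_zero] at h2
        rcases mul_eq_zero.1 h2 with h | h
        · exact absurd h hB.ne'
        · exact h
    rw [h1, h4, h3]
    simp

/-- the polynomial of a list -/
noncomputable def pol (T : Tab) : Pl → ℤ[X]
  | [] => 0
  | (c, k) :: p => C c * X ^ kix T k + pol T p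

/-- the sum of the absolute values of the coefficients -/
def l1 : Pl → ℕ
  | [] => 0
  | (c, _) :: p => c.natAbs + l1 p

/-- the sum of the coefficients -/
def sc : Pl → ℤ
  | [] => 0
  | (c, _) :: p => c + sc p

theorem sc_le (p : Pl) : |sc p| ≤ (l1 p : ℤ) := by
  induction p with
  | nil => simp [sc, l1]
  | cons x p ih =>
    obtain ⟨c, k⟩ := x
    rw [sc, l1]
    push_cast
    refine (abs_add_le _ _).trans (add_le_add ?_ ih)
    simp

theorem pol_coeff (T : Tab) (p : Pl) (i : ℕ) : |(pol T p).coeff i| ≤ (l1 p : ℤ) := by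
  induction p with
  | nil => simp [pol, l1]
  | cons x p ih =>
    obtain ⟨c, k⟩ := x
    rw [pol, l1, coeff_add, coeff_C_mul, coeff_X_pow]
    push_cast
    refine (abs_add_le _ _).trans (add_le_add ?_ ih)
    split_ifs
    · simp
    · simp

theorem run_spec (T : Tab) (s : ℕ) : ∀ (p : Pl) (P Q R : ℕ), run T s p P Q R = true →
    2 ^ s * (pol T p).eval ((2 : ℤ) ^ s) + sc p + P - Q = 0 ∧ 2 * (R + l1 p) < 2 ^ s ∧
      ∀ x ∈ p, kix T x.2 ≠ 4095
  | [], P, Q, R, h => by
    rw [run, Bool.and_eq_true] at h
    have h1 := Nat.eq_of_beq_eq_true h.1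
    have h2 := Nat.le_of_ble_eq_true h.2
    refine ⟨by simp [pol, sc, h1], ?_, by simp⟩
    have : Nat.shiftLeft 1 s = 2 ^ s := by
      have := Nat.shiftLeft_eq 1 s
      simpa using this
    rw [this] at h2
    have h3 : Nat.add (Nat.mul 2 R) 1 = 2 * R + 1 := rfl
    rw [h3] at h2
    simp only [l1]
    omega
  | (Int.ofNat a, k) :: p, P, Q, R, h => by
    rw [run, force_eq] at h
    rcases hb : Nat.beq (kix T k) 4095 with _ | _
    · rw [hb, cond_false, force_eq, force_eq] at h
      obtain ⟨h1, h2, h3⟩ := run_spec T s p _ _ _ h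
      have e1 : Nat.add P (Nat.add a (Nat.shiftLeft a (Nat.mul s (Nat.succ (kix T k))))) =
          P + (a + a * 2 ^ (s * (kix T k + 1))) := by
        have := Nat.shiftLeft_eq a (s * (kix T k + 1))
        rw [← this]; rfl
      have e2 : Nat.add R a = R + a := rfl
      rw [e1] at h1
      rw [e2] at h2
      refine ⟨?_, ?_, ?_⟩
      · rw [pol, sc]
        push_cast at h1
        simp only [eval_add, eval_mul, eval_C, eval_pow, eval_X, ← pow_mul]
        have : ((Int.ofNat a : ℤ)) = (a : ℤ) := rfl
        rw [this]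
        have e3 : (2 : ℤ) ^ (s * (kix T k + 1)) = 2 ^ s * 2 ^ (s * kix T k) := by
          rw [← pow_add]; ring_nf
        rw [e3] at h1
        linarith
      · have : l1 ((Int.ofNat a, k) :: p) = a + l1 p := rfl
        rw [this]; omega
      · intro x hx
        rcases List.mem_cons.1 hx with rfl | hx
        · intro hc
          simp only at hc
          rw [hc] at hb
          exact absurd hb (by decide)
        · exact h3 x hx
    · rw [hb, cond_true] at h
      exact absurd h (by decide)
  | (Int.negSucc a, k) :: p, P, Q, R, h => by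
    rw [run, force_eq] at h
    rcases hb : Nat.beq (kix T k) 4095 with _ | _
    · rw [hb, cond_false, force_eq, force_eq] at h
      obtain ⟨h1, h2, h3⟩ := run_spec T s p _ _ _ h
      have e1 : Nat.add Q (Nat.add (Nat.succ a) (Nat.shiftLeft (Nat.succ a)
          (Nat.mul s (Nat.succ (kix T k))))) =
          Q + ((a + 1) + (a + 1) * 2 ^ (s * (kix T k + 1))) := by
        have := Nat.shiftLeft_eq (a + 1) (s * (kix T k + 1))
        rw [← this]; rfl
      have e2 : Nat.add R (Nat.succ a) = R + (a + 1) := rfl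
      rw [e1] at h1
      rw [e2] at h2
      refine ⟨?_, ?_, ?_⟩
      · rw [pol, sc]
        push_cast at h1
        simp only [eval_add, eval_mul, eval_C, eval_pow, eval_X, ← pow_mul]
        have : ((Int.negSucc a : ℤ)) = -((a : ℤ) + 1) := by
          rw [Int.negSucc_eq]
        rw [this]
        have e3 : (2 : ℤ) ^ (s * (kix T k + 1)) = 2 ^ s * 2 ^ (s * kix T k) := by
          rw [← pow_add]; ring_nf
        rw [e3] at h1
        linarith
      · have : l1 ((Int.negSucc a, k) :: p) = (a + 1) + l1 p := rfl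
        rw [this]; omega
      · intro x hx
        rcases List.mem_cons.1 hx with rfl | hx
        · intro hc
          simp only at hc
          rw [hc] at hb
          exact absurd hb (by decide)
        · exact h3 x hx
    · rw [hb, cond_true] at h
      exact absurd h (by decide)

theorem pol_eq_zero {T : Tab} {s : ℕ} {p : Pl} (h : run T s p 0 0 0 = true) : pol T p = 0 := by
  obtain ⟨h1, h2, -⟩ := run_spec T s p 0 0 0 h
  have h4 : (2 : ℤ) * (l1 p : ℤ) < 2 ^ s := by
    have : 2 * (0 + l1 p) < 2 ^ s := h2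
    rw [zero_add] at this
    exact_mod_cast this
  have h5 : X * pol T p + C (sc p) = 0 := by
    refine kron_inj ((2 : ℤ) ^ s) (by positivity) _ _ le_rfl ?_ ?_
    · intro i
      cases i with
      | zero =>
        have h3 := sc_le p
        rw [coeff_add, mul_coeff_zero, coeff_X_zero, zero_mul, zero_add, coeff_C_zero]
        linarith
      | succ i =>
        have h3 := pol_coeff T p i
        rw [coeff_add, coeff_X_mul, coeff_C_succ, add_zero]
        linarith
    · rw [eval_add, eval_mul, eval_X, eval_C]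
      push_cast at h1
      linarith
  ext i
  have h6 := congrArg (fun q => coeff q (i + 1)) h5
  simp only [coeff_add, coeff_X_mul, coeff_C_succ, add_zero, coeff_zero] at h6
  rw [h6, coeff_zero]

/-- the linear functional on polynomials -/
noncomputable def lin (f : ℕ → ℝ) (p : ℤ[X]) : ℝ := p.sum fun n c => (c : ℝ) * f n

theorem lin_zero (f : ℕ → ℝ) : lin f 0 = 0 := by simp [lin]

theorem lin_add (f : ℕ → ℝ) (p q : ℤ[X]) : lin f (p + q) = lin f p + lin f q := by
  unfold lin
  exact sum_add_index p q _ (by simp) (by intros; push_cast; ring)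

theorem lin_mono (f : ℕ → ℝ) (c : ℤ) (n : ℕ) : lin f (C c * X ^ n) = (c : ℝ) * f n := by
  unfold lin
  rw [C_mul_X_pow_eq_monomial, sum_monomial_index]
  simp

/-- homogeneity -/
def Hom (a b : ℕ) (p : Pl) : Prop := ∀ x ∈ p, x.2.1.length = a ∧ x.2.2.length = b

/-- soundness of the tables -/
def Snd (T : Tab) : Prop :=
  sound1 T = true ∧ sound2 T = true ∧ sound3 T = true ∧ Nat.ble T.n 128 = true

section

variable {R : Type*} [Ring R] [StarRing R] {E : Ky → R} {t : R →+ ℝ}

/-- the functional at an index -/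
noncomputable def fix (E : Ky → R) (t : R →+ ℝ) (T : Tab) (i : ℕ) : ℝ :=
  t (E (rpw T (piq T i / 128), rpw T (piq T i % 128)))

theorem t_canon (h : Rp E t) (v w : Wd) : t (E (canon v, canon w)) = t (E (v, w)) := by
  rw [canon_inv (f := fun x => t (E (x, canon w))) (fun x => h.rot1 x _) v,
    canon_inv (f := fun x => t (E (v, x))) (fun x => h.rot2 v x) w]

theorem t_kix (h : Rp E t) {T : Tab} (hT : Snd T) {k : Ky} (h1 : k.1.length = T.k)
    (h2 : k.2.length = T.k) (h3 : kix T k ≠ 4095) : t (E k) = fix E t T (kix T k) := by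
  obtain ⟨s1, s2, s3, s4⟩ := hT
  have s4' : T.n ≤ 128 := Nat.le_of_ble_eq_true s4
  have a1 : ∀ v : Wd, v.length = T.k → canon v = rpw T (cls T (code v)) ∧
      cls T (code v) < T.n := by
    intro v hv
    have := allB_spec s1 (code v) (by rw [← hv]; exact code_lt v)
    rw [Bool.and_eq_true, ← hv, dec_code] at this
    refine ⟨?_, ?_⟩
    · exact weq_eq this.1
    · exact Nat.le_of_ble_eq_true this.2
  obtain ⟨b1, c1⟩ := a1 k.1 h1
  obtain ⟨b2, c2⟩ := a1 k.2 h2
  have e0 : t (E k) = t (E (rpw T (cls T (code k.1)), rpw T (cls T (code k.2)))) := by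
    rw [← b1, ← b2, t_canon h]
  have hk : kix T k = pix T (cls T (code k.1)) (cls T (code k.2)) := rfl
  generalize cls T (code k.1) = a at *
  generalize cls T (code k.2) = b at *
  have := allB_spec (allB_spec s3 a c1) b c2
  rw [Bool.or_eq_true, Bool.or_eq_true] at this
  rw [e0, fix, hk]
  rcases this with h5 | h5 | h5
  · exact absurd (Nat.eq_of_beq_eq_true h5) (by rw [← hk]; exact h3)
  · rw [Nat.eq_of_beq_eq_true h5]
    have e1 : (128 * a + b) / 128 = a := by omega
    have e2 : (128 * a + b) % 128 = b := by omega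
    rw [e1, e2]
  · have ra := allB_spec s2 a c1
    have rb := allB_spec s2 b c2
    rw [Bool.and_eq_true] at ra rb
    have hb : rvc T b < 128 := Nat.le_of_ble_eq_true rb.2
    rw [Nat.eq_of_beq_eq_true h5]
    have e1 : (128 * rvc T a + rvc T b) / 128 = rvc T a := by omega
    have e2 : (128 * rvc T a + rvc T b) % 128 = rvc T b := by omega
    rw [e1, e2, ← weq_eq ra.1, ← weq_eq rb.1, t_canon h, h.rev]

theorem of_run (h : Rp E t) {T : Tab} (hT : Snd T) {p : Pl} (hp : Hom T.k T.k p) {s : ℕ}
    (hr : run T s p 0 0 0 = true) : t (mat E p) = 0 := by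
  have h1 := pol_eq_zero hr
  obtain ⟨-, -, h3⟩ := run_spec T s p 0 0 0 hr
  have h4 : ∀ q : Pl, Hom T.k T.k q → (∀ x ∈ q, kix T x.2 ≠ 4095) →
      t (mat E q) = lin (fix E t T) (pol T q) := by
    intro q
    induction q with
    | nil => intro _ _; simp [mat, pol, lin_zero]
    | cons x q ih =>
      intro hq hq'
      obtain ⟨c, k⟩ := x
      have hx := hq (c, k) (by simp)
      rw [mat, pol, map_add, map_zsmul, lin_add, lin_mono,
        ih (fun y hy => hq y (by simp [hy])) (fun y hy => hq' y (by simp [hy])), zsmul_eq_mul,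
        t_kix h hT hx.1 hx.2 (hq' (c, k) (by simp))]
  rw [h4 p hp h3, h1, lin_zero]

end

/-! Homogeneity lemmas. -/

theorem hom_append {a b : ℕ} {p q : Pl} (hp : Hom a b p) (hq : Hom a b q) :
    Hom a b (p ++ q) := by
  intro x hx
  rcases List.mem_append.1 hx with h | h
  · exact hp x h
  · exact hq x h

theorem hom_mulM {a b a' b' : ℕ} (c : ℤ) (k : Ky) (h1 : k.1.length = a) (h2 : k.2.length = b) :
    ∀ {q : Pl}, Hom a' b' q → Hom (a + a') (b + b') (mulM c k q)
  | [], _ => by intro x hx; simp [mulM] at hx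
  | (d, l) :: q, hq => by
    intro x hx
    rw [mulM] at hx
    rcases List.mem_cons.1 hx with rfl | hx
    · have := hq (d, l) (by simp)
      simp only [List.length_append]
      exact ⟨by rw [h1, this.1], by rw [h2, this.2]⟩
    · exact hom_mulM c k h1 h2 (fun y hy => hq y (by simp [hy])) x hx

theorem hom_mulL {a b a' b' : ℕ} : ∀ {p q : Pl}, Hom a b p → Hom a' b' q →
    Hom (a + a') (b + b') (mulL p q)
  | [], q, _, _ => by intro x hx; simp [mulL] at hx
  | (c, k) :: p, q, hp, hq => by
    have hk := hp (c, k) (by simp)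
    exact hom_append (hom_mulM c k hk.1 hk.2 hq) (hom_mulL (fun y hy => hp y (by simp [hy])) hq)

theorem hom_adjL {a b : ℕ} {p : Pl} (hp : Hom a b p) : Hom a b (adjL p) := by
  intro x hx
  obtain ⟨y, hy, rfl⟩ := List.mem_map.1 hx
  simpa using hp y hy

theorem hom_smulL {a b : ℕ} (c : ℤ) {p : Pl} (hp : Hom a b p) : Hom a b (smulL c p) := by
  intro x hx
  obtain ⟨y, hy, rfl⟩ := List.mem_map.1 hx
  exact hp y hy

theorem hom_powL {a b : ℕ} {p : Pl} (hp : Hom a b p) : ∀ k : ℕ, Hom (k * a) (k * b) (powL p k)
  | 0 => by intro x hx; simp [powL] at hx; subst hx; simp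
  | k + 1 => by
    rw [powL]
    have := hom_mulL hp (hom_powL hp k)
    rw [show (k + 1) * a = a + k * a by ring, show (k + 1) * b = b + k * b by ring]
    exact this

theorem wds_length : ∀ (k j : ℕ) (w : Wd), w ∈ wds k j → w.length = k
  | 0, 0, w, h => by simp [wds] at h; simp [h]
  | 0, j + 1, w, h => by simp [wds] at h
  | k + 1, 0, w, h => by
    simp only [wds, List.mem_map] at h
    obtain ⟨v, hv, rfl⟩ := h
    simp [wds_length k 0 v hv]
  | k + 1, j + 1, w, h => by
    simp only [wds, List.mem_append, List.mem_map] at h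
    rcases h with ⟨v, hv, rfl⟩ | ⟨v, hv, rfl⟩
    · simp [wds_length k _ v hv]
    · simp [wds_length k _ v hv]

theorem hom_prodL (c : ℤ) (k i j : ℕ) : Hom k k (prodL c (wds k i) (wds k j)) := by
  intro x hx
  obtain ⟨v, hv, hx⟩ := List.mem_flatMap.1 hx
  obtain ⟨w, hw, rfl⟩ := List.mem_map.1 hx
  exact ⟨wds_length k i v hv, wds_length k j w hw⟩

end Pool.Agent.Lib_helper57.INL
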