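import Mathlib
import Pool.Agent.Lib_helper57.INL.Gram
import Pool.Agent.Lib_helper57.INL.Defs

/-!
# Runs in chunks
-/

set_option autoImplicit false
set_option linter.unusedSectionVars false
set_option linter.unusedSimpArgs false

namespace Pool.Agent.Lib_helper57.INL

/-- a run whose final state is compared with a given one -/
def runE (T : Tab) (s P1 Q1 R1 : ℕ) : Pl → ℕ → ℕ → ℕ → Bool
  | [], P, Q, R => Nat.beq P P1 && (Nat.beq Q Q1 && Nat.beq R R1)
  | (Int.ofNat a, k) :: p, P, Q, R =>
    force (fun i => cond (Nat.beq i 4095) false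
      (force (fun P => force (fun R => runE T s P1 Q1 R1 p P Q R) (Nat.add R a))
        (Nat.add P (Nat.add a (Nat.shiftLeft a (Nat.mul s (Nat.succ i))))))) (kix T k)
  | (Int.negSucc a, k) :: p, P, Q, R =>
    force (fun i => cond (Nat.beq i 4095) false
      (force (fun Q => force (fun R => runE T s P1 Q1 R1 p P Q R) (Nat.add R (Nat.succ a)))
        (Nat.add Q (Nat.add (Nat.succ a)
          (Nat.shiftLeft (Nat.succ a) (Nat.mul s (Nat.succ i))))))) (kix T k)

theorem run_append {T : Tab} {s P1 Q1 R1 : ℕ} : ∀ {p : Pl} {P Q R : ℕ},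
    runE T s P1 Q1 R1 p P Q R = true → ∀ q : Pl,
      run T s (p ++ q) P Q R = run T s q P1 Q1 R1
  | [], P, Q, R, h, q => by
    rw [runE, Bool.and_eq_true, Bool.and_eq_true] at h
    rw [Nat.eq_of_beq_eq_true h.1, Nat.eq_of_beq_eq_true h.2.1, Nat.eq_of_beq_eq_true h.2.2,
      List.nil_append]
  | (Int.ofNat a, k) :: p, P, Q, R, h, q => by
    rw [runE, force_eq] at h
    rw [List.cons_append, run, force_eq]
    rcases hb : Nat.beq (kix T k) 4095 with _ | _
    · rw [hb, cond_false, force_eq, force_eq] at h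
      rw [cond_false, force_eq, force_eq]
      exact run_append h q
    · rw [hb, cond_true] at h
      exact absurd h (by decide)
  | (Int.negSucc a, k) :: p, P, Q, R, h, q => by
    rw [runE, force_eq] at h
    rw [List.cons_append, run, force_eq]
    rcases hb : Nat.beq (kix T k) 4095 with _ | _
    · rw [hb, cond_false, force_eq, force_eq] at h
      rw [cond_false, force_eq, force_eq]
      exact run_append h q
    · rw [hb, cond_true] at h
      exact absurd h (by decide)

/-- one row of the negative of a block -/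
def gch (b : Blk) (m : ℕ) : Pl :=
  smulL (-1) (mulL b.M (mulL (adjL (b.x m)) (mulL b.N (collect0 (linN (b.k m) b.x b.n) []))))

/-- all rows -/
def gL (b : Blk) : ℕ → Pl
  | 0 => []
  | m + 1 => gch b m ++ gL b m

theorem prodL_append (c : ℤ) (u v w : List Wd) :
    prodL c (u ++ v) w = prodL c u w ++ prodL c v w := by
  simp [prodL]

theorem hom_gch {b : Blk} {k : ℕ} {s : ℕ × ℕ × ℕ} (h : b.hom k s = true) (m : ℕ) :
    Hom k k (gch b m) := by
  rw [Blk.hom, Bool.and_eq_true, Bool.and_eq_true, Bool.and_eq_true, beq_iff_eq] at h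
  obtain ⟨⟨⟨h1, h2⟩, h3⟩, h4⟩ := h
  rw [← h4]
  exact hom_smulL _ (hom_mulL (hom_of_homB h1) (hom_mulL (hom_adjL (nth_hom b.X h3 m))
    (hom_mulL (hom_of_homB h2) (hom_collect0 (hom_linN (nth_hom b.X h3) _) (hom_nil _ _)))))

theorem hom_gL {b : Blk} {k : ℕ} {s : ℕ × ℕ × ℕ} (h : b.hom k s = true) :
    ∀ m, Hom k k (gL b m)
  | 0 => hom_nil _ _
  | m + 1 => hom_append (hom_gch h m) (hom_gL h m)

section

variable {R : Type*} [Ring R] [StarRing R] {E : Ky → R} {t : R →+ ℝ}

theorem mat_gL (h : Rp E t) (b : Blk) (m : ℕ) :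
    mat E (gL b m) = - mat E (mulL b.M (gramN b.N b.k b.x b.n m)) := by
  induction m with
  | zero => rw [mat_mulL h]; simp [gL, gramN, mat]
  | succ m ih =>
    have e1 : gL b (m + 1) = gch b m ++ gL b m := rfl
    have e2 : gramN b.N b.k b.x b.n (m + 1) = mulL (adjL (b.x m)) (mulL b.N
      (collect0 (linN (b.k m) b.x b.n) [])) ++ gramN b.N b.k b.x b.n m := rfl
    rw [e1, e2, gch]
    generalize mulL (adjL (b.x m)) (mulL b.N (collect0 (linN (b.k m) b.x b.n) [])) = r
    rw [mat_append, ih, mat_smulL]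
    simp only [mat_mulL h, mat_append, mul_add, neg_add, neg_smul, one_smul]

/-- Gram certificate, one block, in chunks. -/
theorem gcert1 (h : Rp E t) {T : Tab} (hT : Snd T) {b : Blk} {hs : ℕ × ℕ × ℕ}
    (hok : b.ok = true) (hhom : b.hom T.k hs = true)
    (hM : ∀ y : R, 0 ≤ t (mat E b.M * (star y * (mat E b.N * y))))
    {target : Pl} (ht : Hom T.k T.k target) {s : ℕ}
    (hr : run T s (target ++ gL b b.n) 0 0 0 = true) :
    0 ≤ t (mat E target) := by
  have h2 := Blk.nonneg h hok hM
  have h3 := of_run h hT (hom_append ht (hom_gL hhom b.n)) hr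
  rw [mat_append, mat_gL h, map_add, map_neg] at h3
  have h4 : mat E b.pl = mat E (mulL b.M (gramN b.N b.k b.x b.n b.n)) := rfl
  rw [h4] at h2
  linarith

end

end Pool.Agent.Lib_helper57.INL
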