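import Mathlib
import Pool.Agent.Lib_helper57.INL.Tab8
import Pool.Agent.Lib_helper57.INL.Chunk

/-!
# The gap block for `k = 8`
-/

set_option autoImplicit false
set_option linter.unusedSectionVars false
set_option linter.unusedSimpArgs false
set_option maxRecDepth 100000

namespace Pool.Agent.Lib_helper57.INL

/-- gap block for `k = 8` -/
def b8 : Blk :=
  { M := [(1, ([], []))], N := [(1, ([], []))], n := 13,
    K := [[1692, 1084, 208, 1084, 1632, 616, 208, 616, 772, -1316, -744, -744, -532],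
     [1084, 1744, 836, 644, 1848, 1100, -64, 416, 616, -1196, -1104, -816, -756],
     [208, 836, 708, -64, 704, 836, -252, -64, 208, -428, -400, -400, -340],
     [1084, 644, -64, 1744, 1848, 416, 836, 1100, 616, -1196, -816, -1104, -756],
     [1632, 1848, 704, 1848, 3536, 1848, 704, 1848, 1632, -2264, -1816, -1816, -1432],
     [616, 1100, 836, 416, 1848, 1744, -64, 644, 1084, -1196, -816, -1104, -756],
     [208, -64, -252, 836, 704, -64, 708, 836, 208, -428, -400, -400, -340],
     [616, 416, -64, 1100, 1848, 644, 836, 1744, 1084, -1196, -1104, -816, -756],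
     [772, 616, 208, 616, 1632, 1084, 208, 1084, 1692, -1316, -744, -744, -532],
     [-1316, -1196, -428, -1196, -2264, -1196, -428, -1196, -1316, 1640, 1124, 1124, 856],
     [-744, -1104, -400, -816, -1816, -816, -400, -1104, -744, 1124, 1168, 764, 768],
     [-744, -816, -400, -1104, -1816, -1104, -400, -816, -744, 1124, 764, 1168, 768],
     [-532, -756, -340, -756, -1432, -756, -340, -756, -532, 856, 768, 768, 632]],
    X := [[(1, (w_aaab, w_aaab)), (-1, (w_aaab, w_aaba)), (-1, (w_aaba, w_aaab)), (1, (w_aaba, w_aaba)), (1, (w_abab, w_abab)), (-1, (w_abab, w_abba)), (-1, (w_abba, w_abab)), (1, (w_abba, w_abba)), (1, (w_baab, w_baab)), (-1, (w_baab, w_baba)), (-1, (w_baba, w_baab)), (1, (w_baba, w_baba)), (1, (w_bbab, w_bbab)), (-1, (w_bbab, w_bbba)), (-1, (w_bbba, w_bbab)), (1, (w_bbba, w_bbba))],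
      [(1, (w_aaab, w_aaba)), (-1, (w_aaab, w_abaa)), (-1, (w_aaba, w_aaba)), (1, (w_aaba, w_abaa)), (1, (w_abab, w_aabb)), (-1, (w_abab, w_abab)), (-1, (w_abba, w_aabb)), (1, (w_abba, w_abab)), (1, (w_baab, w_baba)), (-1, (w_baab, w_bbaa)), (-1, (w_baba, w_baba)), (1, (w_baba, w_bbaa)), (1, (w_bbab, w_babb)), (-1, (w_bbab, w_bbab)), (-1, (w_bbba, w_babb)), (1, (w_bbba, w_bbab))],
      [(1, (w_aaab, w_abaa)), (-1, (w_aaab, w_baaa)), (-1, (w_aaba, w_abaa)), (1, (w_aaba, w_baaa)), (1, (w_abab, w_abab)), (-1, (w_abab, w_baab)), (-1, (w_abba, w_abab)), (1, (w_abba, w_baab)), (1, (w_baab, w_abba)), (-1, (w_baab, w_baba)), (-1, (w_baba, w_abba)), (1, (w_baba, w_baba)), (1, (w_bbab, w_abbb)), (-1, (w_bbab, w_babb)), (-1, (w_bbba, w_abbb)), (1, (w_bbba, w_babb))],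
      [(1, (w_aaba, w_aaab)), (-1, (w_aaba, w_aaba)), (-1, (w_abaa, w_aaab)), (1, (w_abaa, w_aaba)), (1, (w_aabb, w_abab)), (-1, (w_aabb, w_abba)), (-1, (w_abab, w_abab)), (1, (w_abab, w_abba)), (1, (w_baba, w_baab)), (-1, (w_baba, w_baba)), (-1, (w_bbaa, w_baab)), (1, (w_bbaa, w_baba)), (1, (w_babb, w_bbab)), (-1, (w_babb, w_bbba)), (-1, (w_bbab, w_bbab)), (1, (w_bbab, w_bbba))],
      [(1, (w_aaba, w_aaba)), (-1, (w_aaba, w_abaa)), (-1, (w_abaa, w_aaba)), (1, (w_abaa, w_abaa)), (1, (w_aabb, w_aabb)), (-1, (w_aabb, w_abab)), (-1, (w_abab, w_aabb)), (1, (w_abab, w_abab)), (1, (w_baba, w_baba)), (-1, (w_baba, w_bbaa)), (-1, (w_bbaa, w_baba)), (1, (w_bbaa, w_bbaa)), (1, (w_babb, w_babb)), (-1, (w_babb, w_bbab)), (-1, (w_bbab, w_babb)), (1, (w_bbab, w_bbab))],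
      [(1, (w_aaba, w_abaa)), (-1, (w_aaba, w_baaa)), (-1, (w_abaa, w_abaa)), (1, (w_abaa, w_baaa)), (1, (w_aabb, w_abab)), (-1, (w_aabb, w_baab)), (-1, (w_abab, w_abab)), (1, (w_abab, w_baab)), (1, (w_baba, w_abba)), (-1, (w_baba, w_baba)), (-1, (w_bbaa, w_abba)), (1, (w_bbaa, w_baba)), (1, (w_babb, w_abbb)), (-1, (w_babb, w_babb)), (-1, (w_bbab, w_abbb)), (1, (w_bbab, w_babb))],
      [(1, (w_abaa, w_aaab)), (-1, (w_abaa, w_aaba)), (-1, (w_baaa, w_aaab)), (1, (w_baaa, w_aaba)), (1, (w_abab, w_abab)), (-1, (w_abab, w_abba)), (-1, (w_baab, w_abab)), (1, (w_baab, w_abba)), (1, (w_abba, w_baab)), (-1, (w_abba, w_baba)), (-1, (w_baba, w_baab)), (1, (w_baba, w_baba)), (1, (w_abbb, w_bbab)), (-1, (w_abbb, w_bbba)), (-1, (w_babb, w_bbab)), (1, (w_babb, w_bbba))],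
      [(1, (w_abaa, w_aaba)), (-1, (w_abaa, w_abaa)), (-1, (w_baaa, w_aaba)), (1, (w_baaa, w_abaa)), (1, (w_abab, w_aabb)), (-1, (w_abab, w_abab)), (-1, (w_baab, w_aabb)), (1, (w_baab, w_abab)), (1, (w_abba, w_baba)), (-1, (w_abba, w_bbaa)), (-1, (w_baba, w_baba)), (1, (w_baba, w_bbaa)), (1, (w_abbb, w_babb)), (-1, (w_abbb, w_bbab)), (-1, (w_babb, w_babb)), (1, (w_babb, w_bbab))],
      [(1, (w_abaa, w_abaa)), (-1, (w_abaa, w_baaa)), (-1, (w_baaa, w_abaa)), (1, (w_baaa, w_baaa)), (1, (w_abab, w_abab)), (-1, (w_abab, w_baab)), (-1, (w_baab, w_abab)), (1, (w_baab, w_baab)), (1, (w_abba, w_abba)), (-1, (w_abba, w_baba)), (-1, (w_baba, w_abba)), (1, (w_baba, w_baba)), (1, (w_abbb, w_abbb)), (-1, (w_abbb, w_babb)), (-1, (w_babb, w_abbb)), (1, (w_babb, w_babb))],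
      [(1, (w_abab, w_abab)), (-1, (w_abab, w_abba)), (-1, (w_abab, w_baab)), (1, (w_abab, w_baba)), (-1, (w_abba, w_abab)), (1, (w_abba, w_abba)), (1, (w_abba, w_baab)), (-1, (w_abba, w_baba)), (-1, (w_baab, w_abab)), (1, (w_baab, w_abba)), (1, (w_baab, w_baab)), (-1, (w_baab, w_baba)), (1, (w_baba, w_abab)), (-1, (w_baba, w_abba)), (-1, (w_baba, w_baab)), (1, (w_baba, w_baba))],
      [(1, (w_abab, w_aabb)), (-1, (w_abab, w_baba)), (-1, (w_abab, w_abab)), (1, (w_abab, w_bbaa)), (-1, (w_abba, w_aabb)), (1, (w_abba, w_baba)), (1, (w_abba, w_abab)), (-1, (w_abba, w_bbaa)), (-1, (w_baab, w_aabb)), (1, (w_baab, w_baba)), (1, (w_baab, w_abab)), (-1, (w_baab, w_bbaa)), (1, (w_baba, w_aabb)), (-1, (w_baba, w_baba)), (-1, (w_baba, w_abab)), (1, (w_baba, w_bbaa))],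
      [(1, (w_aabb, w_abab)), (-1, (w_aabb, w_abba)), (-1, (w_aabb, w_baab)), (1, (w_aabb, w_baba)), (-1, (w_baba, w_abab)), (1, (w_baba, w_abba)), (1, (w_baba, w_baab)), (-1, (w_baba, w_baba)), (-1, (w_abab, w_abab)), (1, (w_abab, w_abba)), (1, (w_abab, w_baab)), (-1, (w_abab, w_baba)), (1, (w_bbaa, w_abab)), (-1, (w_bbaa, w_abba)), (-1, (w_bbaa, w_baab)), (1, (w_bbaa, w_baba))],
      [(1, (w_aabb, w_aabb)), (-1, (w_aabb, w_baba)), (-1, (w_aabb, w_abab)), (1, (w_aabb, w_bbaa)), (-1, (w_baba, w_aabb)), (1, (w_baba, w_baba)), (1, (w_baba, w_abab)), (-1, (w_baba, w_bbaa)), (-1, (w_abab, w_aabb)), (1, (w_abab, w_baba)), (1, (w_abab, w_abab)), (-1, (w_abab, w_bbaa)), (1, (w_bbaa, w_aabb)), (-1, (w_bbaa, w_baba)), (-1, (w_bbaa, w_abab)), (1, (w_bbaa, w_bbaa))]],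
    c := 16392634344935602302999175802031607234927385494772939154783483461282003918322919506911400, d := [155013090732251558420795988671693685436665583874921410447125139113777814830476780207200, 1396677905811054974193337856430876457933501976582134938750710795983113471221645600, 100489859101705936656771000367784709911346225013257546687300722264664369450600, 32956622080952993416177111340931034703766255779256736620436010709841965117, 575344021958255315813274475541500381580476116876817864447327434365934675, 658018328899246906250678861507239212707500121740591263166949288928, 148055791245962673018887077329320739505375841651611970431461252000, 2801631904768655563972329097219167202334752509816245493175515163603200, 681571523942737655257799749166293567428338931811816765270362779403406808422934400, 14570176622041090997850790289583770371027306783245594318591416463554555277600, 47637916354710006615501979773558029177479220052794121749329330697139381600, 5558050898161781010898875941338462432389326248935681185438176559617689343200,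 12568812201583831175681710846692745768682827662435677573598517029208365625703975830334400],
    l := [[423, 271, 52, 271, 408, 154, 52, 154, 193, -329, -186, -186, -133],
     [0, 110987, 74315, -5338, 84858, 74591, -20860, 2258, 12839, -37318, -66342, -35886, -43904],
     [0, 0, 5879148, -4535450, -941282, 7990576, -4036857, -4273634, 882445, -830567, 3094378, -2256302, 94029],
     [0, 0, 0, 676833200, 598837550, 203888696, 426986175, 431793104, 111544325, -288779125, -208332622, -519129478, -317857125],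
     [0, 0, 0, 0, 4209587034, 3486958888, 790793445, 4690507936, 4503304999, -2585351271, -2369281242, -1536054978, -1476958615],
     [0, 0, 0, 0, 0, 1893743895599, -1068454953300, -1793241958849, 1069016738900, -56030485275, 1319081746482, -1233446921982, 304510746625],
     [0, 0, 0, 0, 0, 0, 3507949691833, 2549201115032, -541002436249, -1131502191310, -1537078545639, 227752995537, -738283903298],
     [0, 0, 0, 0, 0, 0, 0, 20602579738, 21243896960, -9413097681, -10810317951, 3453006483, 1871120563],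
     [0, 0, 0, 0, 0, 0, 0, 0, 105013, -37973, 10908, 10908, 9048],
     [0, 0, 0, 0, 0, 0, 0, 0, 0, 2255523, 647590, 647590, -2503129],
     [0, 0, 0, 0, 0, 0, 0, 0, 0, 0, 46942409, 8598518, 19007989],
     [0, 0, 0, 0, 0, 0, 0, 0, 0, 0, 0, 4272379, 1462153],
     [0, 0, 0, 0, 0, 0, 0, 0, 0, 0, 0, 0, 1]] }

theorem okb8 : b8.ok = true := by decide +kernel

theorem homb8 : b8.hom 8 (0, 0, 4) = true := by decide +kernel

end Pool.Agent.Lib_helper57.INL
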