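import Mathlib
import Pool.Agent.Lib_helper57.INL.Rep

/-!
# The certificates for the moments, `k = 7`
-/

set_option autoImplicit false

namespace Pool.Agent.Lib_helper57.INL

/-- `A + D` and `A - D` -/
def mA : Bool → Pl
  | false => [(1, ([false], [])), (1, ([true], []))]
  | true => [(1, ([false], [])), (-1, ([true], []))]

/-- the trace of `(A ± D) ^ k` -/
def tgtP (s : Bool) (k : ℕ) (l : List (ℤ × ℕ)) : Pl :=
  powL (mA s) k ++ l.flatMap fun x => sumL x.1 (wds k x.2)

theorem chkP7 : chk (tgtP false 7 [(-1, 0), (-1, 1), (-1, 2), (-1, 3), (-1, 4), (-1, 5), (-1, 6),
    (-1, 7)]) = true := by
  decide +kernel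

theorem chkN7 : chk (tgtP true 7 [(-1, 0), (1, 1), (-1, 2), (1, 3), (-1, 4), (1, 5), (-1, 6),
    (1, 7)]) = true := by
  decide +kernel

/-- reality of the sums of traces -/
theorem chkR7 : (List.range 8).all (fun j => chk0 (adjL (sumL 1 (wds 7 j)) ++
    smulL (-1) (sumL 1 (wds 7 j)))) = true := by
  decide +kernel

/-- `6 S_4 - 30 S_6` -/
def tgtM74 : Pl := sumL 6 (wds 7 4) ++ sumL (-30) (wds 7 6)

def crtM74 : List (ℕ × Bool × Pl) :=
  [(3, false, [(-3, ([false, true, true], [])), (7, ([true, false, true], [])), (1, ([true, true, false], [])), (-5, ([true, true, true], []))]),
    (3, true, [(-3, ([false, true, true], [])), (7, ([true, false, true], [])), (1, ([true, true, false], [])), (5, ([true, true, true], []))]),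
    (2, false, [(-2, ([false, true, true], [])), (3, ([true, true, false], [])), (-1, ([true, true, true], []))]),
    (2, true, [(-2, ([false, true, true], [])), (3, ([true, true, false], [])), (1, ([true, true, true], []))]),
    (28, false, [(-1, ([false, true, true], [])), (1, ([true, true, true], []))]),
    (28, true, [(-1, ([false, true, true], [])), (-1, ([true, true, true], []))])]

set_option maxRecDepth 100000 in
theorem chkM74 : chk (tgtM74 ++ smulL (-1) (sosL mA crtM74)) = true := by
  decide +kernel

/-- `101721585278000 S_2 - 61032951166800 S_4` -/
def tgtM72 : Pl := sumL 101721585278000 (wds 7 2) ++ sumL (-61032951166800) (wds 7 4)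

def crtM72 : List (ℕ × Bool × Pl) :=
  [(1068076645419, false, [(-25, ([false, false, true], [])), (50, ([false, true, false], [])), (7, ([false, true, true], [])), (-10, ([true, false, false], [])), (-4, ([true, false, true], [])), (2, ([true, true, false], [])), (-20, ([true, true, true], []))]),
    (1068076645419, true, [(25, ([false, false, true], [])), (-50, ([false, true, false], [])), (7, ([false, true, true], [])), (10, ([true, false, false], [])), (-4, ([true, false, true], [])), (2, ([true, true, false], [])), (20, ([true, true, true], []))]),
    (547450869, false, [(-425, ([false, false, true], [])), (1951, ([false, true, true], [])), (70, ([true, false, false], [])), (-472, ([true, false, true], [])), (-1014, ([true, true, false], [])), (-110, ([true, true, true], []))]),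
    (547450869, true, [(425, ([false, false, true], [])), (1951, ([false, true, true], [])), (-70, ([true, false, false], [])), (-472, ([true, false, true], [])), (-1014, ([true, true, false], [])), (110, ([true, true, true], []))]),
    (33768250, false, [(-797, ([false, false, true], [])), (2702, ([true, false, false], [])), (-270, ([true, false, true], [])), (660, ([true, true, false], [])), (-2295, ([true, true, true], []))]),
    (33768250, true, [(797, ([false, false, true], [])), (-2702, ([true, false, false], [])), (-270, ([true, false, true], [])), (660, ([true, true, false], [])), (2295, ([true, true, true], []))]),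
    (674558250, false, [(-13, ([false, false, true], [])), (1172, ([true, false, true], [])), (-313, ([true, true, false], [])), (-846, ([true, true, true], []))]),
    (674558250, true, [(13, ([false, false, true], [])), (1172, ([true, false, true], [])), (-313, ([true, true, false], [])), (846, ([true, true, true], []))]),
    (1976850750, false, [(-301, ([false, false, true], [])), (461, ([true, true, false], [])), (-160, ([true, true, true], []))]),
    (1976850750, true, [(301, ([false, false, true], [])), (461, ([true, true, false], [])), (160, ([true, true, true], []))]),
    (457002425832750, false, [(-1, ([false, false, true], [])), (1, ([true, true, true], []))]),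
    (457002425832750, true, [(1, ([false, false, true], [])), (-1, ([true, true, true], []))])]

set_option maxRecDepth 100000 in
theorem chkM72 : chk (tgtM72 ++ smulL (-1) (sosL mA crtM72)) = true := by
  decide +kernel

end Pool.Agent.Lib_helper57.INL
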