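import Mathlib
import Pool.Agent.Lib_helper57.INL.St8

/-!
# Runs for `k = 8`, part 1
-/

set_option autoImplicit false
set_option linter.unusedSectionVars false
set_option linter.unusedSimpArgs false
set_option maxRecDepth 100000

namespace Pool.Agent.Lib_helper57.INL

theorem t8c0 : runE tab8 64 p8c0 q8c0 r8c0 (smulL 840 (powL mP 8)) 0 0 0 = true := by
  decide +kernel

theorem t8w0 : runE tab8 64 p8w0 q8w0 r8w0 (prodL (-840) (wds 8 0) (wds 8 0)) p8c0 q8c0 r8c0 = true := by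
  decide +kernel

theorem t8w1 : runE tab8 64 p8w1 q8w1 r8w1 (prodL (-105) (wds 8 1) (wds 8 1)) p8w0 q8w0 r8w0 = true := by
  decide +kernel

theorem t8w2 : runE tab8 64 p8w2 q8w2 r8w2 (prodL (-30) (wds 8 2) (wds 8 2)) p8w1 q8w1 r8w1 = true := by
  decide +kernel

theorem t8w3 : runE tab8 64 p8w3 q8w3 r8w3 (prodL (-15) (wds 8 3) (wds 8 3)) p8w2 q8w2 r8w2 = true := by
  decide +kernel

theorem t8w4a : runE tab8 64 p8w4a q8w4a r8w4a (prodL (-12) ((wds 7 4).map (false :: ·)) (wds 8 4)) p8w3 q8w3 r8w3 = true := by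
  decide +kernel

theorem t8w4b : runE tab8 64 p8w4b q8w4b r8w4b (prodL (-12) ((wds 7 3).map (true :: ·)) (wds 8 4)) p8w4a q8w4a r8w4a = true := by
  decide +kernel

theorem t8w5 : runE tab8 64 p8w5 q8w5 r8w5 (prodL (-15) (wds 8 5) (wds 8 5)) p8w4b q8w4b r8w4b = true := by
  decide +kernel

theorem t8w6 : runE tab8 64 p8w6 q8w6 r8w6 (prodL (-30) (wds 8 6) (wds 8 6)) p8w5 q8w5 r8w5 = true := by
  decide +kernel

theorem t8w7 : runE tab8 64 p8w7 q8w7 r8w7 (prodL (-105) (wds 8 7) (wds 8 7)) p8w6 q8w6 r8w6 = true := by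
  decide +kernel

theorem t8w8 : runE tab8 64 p8w8 q8w8 r8w8 (prodL (-840) (wds 8 8) (wds 8 8)) p8w7 q8w7 r8w7 = true := by
  decide +kernel


end Pool.Agent.Lib_helper57.INL
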