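import Mathlib
import Pool.Agent.Lib_helper57.INL.St8

/-!
# Runs for `k = 8`, part 2
-/

set_option autoImplicit false
set_option linter.unusedSectionVars false
set_option linter.unusedSimpArgs false
set_option maxRecDepth 100000

namespace Pool.Agent.Lib_helper57.INL

theorem t8g12 : runE tab8 64 p8g12 q8g12 r8g12 (gch b8 12) p8w8 q8w8 r8w8 = true := by
  decide +kernel

theorem t8g11 : runE tab8 64 p8g11 q8g11 r8g11 (gch b8 11) p8g12 q8g12 r8g12 = true := by
  decide +kernel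

theorem t8g10 : runE tab8 64 p8g10 q8g10 r8g10 (gch b8 10) p8g11 q8g11 r8g11 = true := by
  decide +kernel

theorem t8g9 : runE tab8 64 p8g9 q8g9 r8g9 (gch b8 9) p8g10 q8g10 r8g10 = true := by
  decide +kernel

theorem t8g8 : runE tab8 64 p8g8 q8g8 r8g8 (gch b8 8) p8g9 q8g9 r8g9 = true := by
  decide +kernel

theorem t8g7 : runE tab8 64 p8g7 q8g7 r8g7 (gch b8 7) p8g8 q8g8 r8g8 = true := by
  decide +kernel

theorem t8g6 : runE tab8 64 p8g6 q8g6 r8g6 (gch b8 6) p8g7 q8g7 r8g7 = true := by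
  decide +kernel

theorem t8g5 : runE tab8 64 p8g5 q8g5 r8g5 (gch b8 5) p8g6 q8g6 r8g6 = true := by
  decide +kernel

theorem t8g4 : runE tab8 64 p8g4 q8g4 r8g4 (gch b8 4) p8g5 q8g5 r8g5 = true := by
  decide +kernel

theorem t8g3 : runE tab8 64 p8g3 q8g3 r8g3 (gch b8 3) p8g4 q8g4 r8g4 = true := by
  decide +kernel

theorem t8g2 : runE tab8 64 p8g2 q8g2 r8g2 (gch b8 2) p8g3 q8g3 r8g3 = true := by
  decide +kernel

theorem t8g1 : runE tab8 64 p8g1 q8g1 r8g1 (gch b8 1) p8g2 q8g2 r8g2 = true := by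
  decide +kernel

theorem t8g0 : runE tab8 64 p8g0 q8g0 r8g0 (gch b8 0) p8g1 q8g1 r8g1 = true := by
  decide +kernel


end Pool.Agent.Lib_helper57.INL
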