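import Mathlib
import Pool.Agent.Lib_helper57.INL.Gap8a
import Pool.Agent.Lib_helper57.INL.Gap8b

/-!
# The gap certificate for `k = 8`
-/

set_option autoImplicit false
set_option linter.unusedSectionVars false
set_option linter.unusedSimpArgs false
set_option maxRecDepth 100000

namespace Pool.Agent.Lib_helper57.INL

/-- the Weyl weights -/
def wl8 : List (ℤ × ℕ) := [(-840, 0), (-105, 1), (-30, 2), (-15, 3), (-12, 4), (-15, 5), (-30, 6), (-105, 7), (-840, 8)]

theorem run8 : run tab8 64 ((smulL 840 (powL mP 8) ++ weylL 8 wl8) ++ gL b8 13) 0 0 0 =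
    true := by
  rw [List.append_assoc, run_append t8c0]
  rw [show weylL 8 wl8 = prodL (-840) (wds 8 0) (wds 8 0) ++ weylL 8 [(-105, 1), (-30, 2), (-15, 3), (-12, 4), (-15, 5), (-30, 6), (-105, 7), (-840, 8)] from rfl,
    List.append_assoc]
  rw [run_append t8w0]
  rw [show weylL 8 [(-105, 1), (-30, 2), (-15, 3), (-12, 4), (-15, 5), (-30, 6), (-105, 7), (-840, 8)] = prodL (-105) (wds 8 1) (wds 8 1) ++ weylL 8 [(-30, 2), (-15, 3), (-12, 4), (-15, 5), (-30, 6), (-105, 7), (-840, 8)] from rfl,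
    List.append_assoc]
  rw [run_append t8w1]
  rw [show weylL 8 [(-30, 2), (-15, 3), (-12, 4), (-15, 5), (-30, 6), (-105, 7), (-840, 8)] = prodL (-30) (wds 8 2) (wds 8 2) ++ weylL 8 [(-15, 3), (-12, 4), (-15, 5), (-30, 6), (-105, 7), (-840, 8)] from rfl,
    List.append_assoc]
  rw [run_append t8w2]
  rw [show weylL 8 [(-15, 3), (-12, 4), (-15, 5), (-30, 6), (-105, 7), (-840, 8)] = prodL (-15) (wds 8 3) (wds 8 3) ++ weylL 8 [(-12, 4), (-15, 5), (-30, 6), (-105, 7), (-840, 8)] from rfl,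
    List.append_assoc]
  rw [run_append t8w3]
  rw [show weylL 8 [(-12, 4), (-15, 5), (-30, 6), (-105, 7), (-840, 8)] = prodL (-12) (wds 8 4) (wds 8 4) ++ weylL 8 [(-15, 5), (-30, 6), (-105, 7), (-840, 8)] from rfl,
    List.append_assoc]
  rw [show prodL (-12) (wds 8 4) (wds 8 4) = prodL (-12) ((wds 7 4).map (false :: ·)) (wds 8 4) ++
      prodL (-12) ((wds 7 3).map (true :: ·)) (wds 8 4) from prodL_append _ _ _ _,
    List.append_assoc, run_append t8w4a, run_append t8w4b]
  rw [show weylL 8 [(-15, 5), (-30, 6), (-105, 7), (-840, 8)] = prodL (-15) (wds 8 5) (wds 8 5) ++ weylL 8 [(-30, 6), (-105, 7), (-840, 8)] from rfl,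
    List.append_assoc]
  rw [run_append t8w5]
  rw [show weylL 8 [(-30, 6), (-105, 7), (-840, 8)] = prodL (-30) (wds 8 6) (wds 8 6) ++ weylL 8 [(-105, 7), (-840, 8)] from rfl,
    List.append_assoc]
  rw [run_append t8w6]
  rw [show weylL 8 [(-105, 7), (-840, 8)] = prodL (-105) (wds 8 7) (wds 8 7) ++ weylL 8 [(-840, 8)] from rfl,
    List.append_assoc]
  rw [run_append t8w7]
  rw [show weylL 8 [(-840, 8)] = prodL (-840) (wds 8 8) (wds 8 8) ++ weylL 8 [] from rfl,
    List.append_assoc]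
  rw [run_append t8w8]
  rw [show weylL 8 [] = [] from rfl, List.nil_append]
  rw [show gL b8 13 = gch b8 12 ++ gL b8 12 from rfl, run_append t8g12]
  rw [show gL b8 12 = gch b8 11 ++ gL b8 11 from rfl, run_append t8g11]
  rw [show gL b8 11 = gch b8 10 ++ gL b8 10 from rfl, run_append t8g10]
  rw [show gL b8 10 = gch b8 9 ++ gL b8 9 from rfl, run_append t8g9]
  rw [show gL b8 9 = gch b8 8 ++ gL b8 8 from rfl, run_append t8g8]
  rw [show gL b8 8 = gch b8 7 ++ gL b8 7 from rfl, run_append t8g7]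
  rw [show gL b8 7 = gch b8 6 ++ gL b8 6 from rfl, run_append t8g6]
  rw [show gL b8 6 = gch b8 5 ++ gL b8 5 from rfl, run_append t8g5]
  rw [show gL b8 5 = gch b8 4 ++ gL b8 4 from rfl, run_append t8g4]
  rw [show gL b8 4 = gch b8 3 ++ gL b8 3 from rfl, run_append t8g3]
  rw [show gL b8 3 = gch b8 2 ++ gL b8 2 from rfl, run_append t8g2]
  rw [show gL b8 2 = gch b8 1 ++ gL b8 1 from rfl, run_append t8g1]
  rw [show gL b8 1 = gch b8 0 ++ gL b8 0 from rfl, run_append t8g0]
  rw [show gL b8 0 = [] from rfl]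
  decide +kernel


end Pool.Agent.Lib_helper57.INL
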