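import Mathlib
import Pool.Agent.Lib_helper57.INL.Tab8

/-!
# The moment certificates for `k = 8`
-/

set_option autoImplicit false
set_option linter.unusedSectionVars false
set_option linter.unusedSimpArgs false
set_option maxRecDepth 100000

namespace Pool.Agent.Lib_helper57.INL

def bM82 : List Blk := [
  { M := [(1, ([], []))], N := [(1, ([], []))], n := 4,
    K := [[88, -4, -32, -20],
     [-4, 96, -6, 12],
     [-32, -6, 32, -26],
     [-20, 12, -26, 66]],
    X := [[(1, (w_abab, w_abab)), (1, (w_baba, w_baba)), (-1, (w_aabb, w_aabb)), (-1, (w_bbaa, w_bbaa))],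
      [(2, (w_abba, w_abba)), (-1, (w_aabb, w_aabb)), (-1, (w_bbaa, w_bbaa))],
      [(2, (w_baab, w_baab)), (-1, (w_aabb, w_aabb)), (-1, (w_bbaa, w_bbaa))],
      [(2, (w_bbbb, w_bbbb)), (-1, (w_aabb, w_aabb)), (-1, (w_bbaa, w_bbaa))]],
    c := 30219761, d := [5494502, 10426, 22, 213851330],
    l := [[22, -1, -8, -5],
     [0, 527, -41, 61],
     [0, 0, 5213, -8540],
     [0, 0, 0, 1]] },
  { M := [(1, ([], []))], N := [(1, ([], []))], n := 4,
    K := [[88, -4, -32, -20],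
     [-4, 96, -6, 12],
     [-32, -6, 32, -26],
     [-20, 12, -26, 66]],
    X := [[(1, (w_abab, w_abab)), (1, (w_baba, w_baba)), (-1, (w_aabb, w_aabb)), (-1, (w_bbaa, w_bbaa))],
      [(2, (w_abba, w_abba)), (-1, (w_aabb, w_aabb)), (-1, (w_bbaa, w_bbaa))],
      [(2, (w_baab, w_baab)), (-1, (w_aabb, w_aabb)), (-1, (w_bbaa, w_bbaa))],
      [(2, (w_bbbb, w_bbbb)), (-1, (w_aabb, w_aabb)), (-1, (w_bbaa, w_bbaa))]],
    c := 30219761, d := [5494502, 10426, 22, 213851330],
    l := [[22, -1, -8, -5],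
     [0, 527, -41, 61],
     [0, 0, 5213, -8540],
     [0, 0, 0, 1]] },
  { M := [(1, ([], []))], N := [(1, ([], []))], n := 2,
    K := [[40, -18],
     [-18, 34]],
    X := [[(1, (w_aabb, w_aabb)), (-1, (w_bbaa, w_bbaa))],
      [(1, (w_abab, w_abab)), (-1, (w_baba, w_baba))]],
    c := 10, d := [1, 259],
    l := [[20, -9],
     [0, 1]] },
  { M := [(1, ([], []))], N := [(1, ([], []))], n := 2,
    K := [[40, -18],
     [-18, 34]],
    X := [[(1, (w_aabb, w_aabb)), (-1, (w_bbaa, w_bbaa))],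
      [(1, (w_abab, w_abab)), (-1, (w_baba, w_baba))]],
    c := 10, d := [1, 259],
    l := [[20, -9],
     [0, 1]] },
  { M := [(1, ([], []))], N := [(1, ([], []))], n := 3,
    K := [[18, -26, 14],
     [-26, 144, -116],
     [14, -116, 100]],
    X := [[(1, (w_aaba, w_aaba)), (1, (w_abaa, w_abaa)), (-1, (w_aaab, w_aaab)), (-1, (w_baaa, w_baaa))],
      [(1, (w_abbb, w_abbb)), (1, (w_bbba, w_bbba)), (-1, (w_aaab, w_aaab)), (-1, (w_baaa, w_baaa))],
      [(1, (w_babb, w_babb)), (1, (w_bbab, w_bbab)), (-1, (w_aaab, w_aaab)), (-1, (w_baaa, w_baaa))]],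
    c := 4311, d := [958, 2, 12636],
    l := [[9, -13, 7],
     [0, 479, -431],
     [0, 0, 1]] },
  { M := [(1, ([], []))], N := [(1, ([], []))], n := 3,
    K := [[18, -26, 14],
     [-26, 144, -116],
     [14, -116, 100]],
    X := [[(-1, (w_aaba, w_aaba)), (-1, (w_abaa, w_abaa)), (1, (w_aaab, w_aaab)), (1, (w_baaa, w_baaa))],
      [(-1, (w_abbb, w_abbb)), (-1, (w_bbba, w_bbba)), (1, (w_aaab, w_aaab)), (1, (w_baaa, w_baaa))],
      [(-1, (w_babb, w_babb)), (-1, (w_bbab, w_bbab)), (1, (w_aaab, w_aaab)), (1, (w_baaa, w_baaa))]],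
    c := 4311, d := [958, 2, 12636],
    l := [[9, -13, 7],
     [0, 479, -431],
     [0, 0, 1]] },
  { M := [(1, ([], []))], N := [(1, ([], []))], n := 4,
    K := [[14, -40, 10, 30],
     [-40, 216, -146, -164],
     [10, -146, 274, 244],
     [30, -164, 244, 292]],
    X := [[(1, (w_aaab, w_aaab)), (-1, (w_baaa, w_baaa))],
      [(1, (w_aaba, w_aaba)), (-1, (w_abaa, w_abaa))],
      [(1, (w_abbb, w_abbb)), (-1, (w_bbba, w_bbba))],
      [(1, (w_babb, w_babb)), (-1, (w_bbab, w_bbab))]],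
    c := 29117774, d := [8319364, 23369, 7, 1000455764],
    l := [[7, -20, 5, 15],
     [0, 356, -411, -274],
     [0, 0, 23369, 23530],
     [0, 0, 0, 1]] },
  { M := [(1, ([], []))], N := [(1, ([], []))], n := 4,
    K := [[14, -40, 10, 30],
     [-40, 216, -146, -164],
     [10, -146, 274, 244],
     [30, -164, 244, 292]],
    X := [[(-1, (w_aaab, w_aaab)), (1, (w_baaa, w_baaa))],
      [(-1, (w_aaba, w_aaba)), (1, (w_abaa, w_abaa))],
      [(-1, (w_abbb, w_abbb)), (1, (w_bbba, w_bbba))],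
      [(-1, (w_babb, w_babb)), (1, (w_bbab, w_bbab))]],
    c := 29117774, d := [8319364, 23369, 7, 1000455764],
    l := [[7, -20, 5, 15],
     [0, 356, -411, -274],
     [0, 0, 23369, 23530],
     [0, 0, 0, 1]] },
  { M := mP, N := mN, n := 3,
    K := [[46, -46, 98],
     [-46, 50, -110],
     [98, -110, 280]],
    X := [[(1, (w_aab, w_aab)), (-1, (w_baa, w_baa))],
      [(1, (w_abb, w_abb)), (1, (w_bba, w_bba))],
      [(1, (w_bab, w_bab))]],
    c := 23, d := [2, 92, 810],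
    l := [[23, -23, 49],
     [0, 1, -3],
     [0, 0, 1]] },
  { M := mN, N := mP, n := 3,
    K := [[46, -46, 98],
     [-46, 50, -110],
     [98, -110, 280]],
    X := [[(-1, (w_aab, w_aab)), (1, (w_baa, w_baa))],
      [(1, (w_abb, w_abb)), (1, (w_bba, w_bba))],
      [(1, (w_bab, w_bab))]],
    c := 23, d := [2, 92, 810],
    l := [[23, -23, 49],
     [0, 1, -3],
     [0, 0, 1]] },
  { M := mP, N := mN, n := 4,
    K := [[66, -141, -51, 63],
     [-141, 392, 33, -254],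
     [-51, 33, 380, -30],
     [63, -254, -30, 264]],
    X := [[(1, (w_aab, w_aab)), (1, (w_baa, w_baa))],
      [(1, (w_aba, w_aba))],
      [(1, (w_abb, w_abb)), (-1, (w_bba, w_bba))],
      [(1, (w_bbb, w_bbb))]],
    c := 2430604616, d := [331446084, 55324, 55, 55816543409],
    l := [[22, -47, -17, 21],
     [0, 1997, -1671, -2627],
     [0, 0, 110648, -32445],
     [0, 0, 0, 1]] },
  { M := mN, N := mP, n := 4,
    K := [[66, -141, -51, 63],
     [-141, 392, 33, -254],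
     [-51, 33, 380, -30],
     [63, -254, -30, 264]],
    X := [[(-1, (w_aab, w_aab)), (-1, (w_baa, w_baa))],
      [(-1, (w_aba, w_aba))],
      [(1, (w_abb, w_abb)), (-1, (w_bba, w_bba))],
      [(-1, (w_bbb, w_bbb))]],
    c := 2430604616, d := [331446084, 55324, 55, 55816543409],
    l := [[22, -47, -17, 21],
     [0, 1997, -1671, -2627],
     [0, 0, 110648, -32445],
     [0, 0, 0, 1]] }]

def hM82 : List (ℕ × ℕ × ℕ) := [(0, 0, 4), (0, 0, 4), (0, 0, 4), (0, 0, 4), (0, 0, 4), (0, 0, 4), (0, 0, 4), (0, 0, 4), (1, 1, 3), (1, 1, 3), (1, 1, 3), (1, 1, 3)]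

/-- `10 S_2 - 4 S_4` -/
def tM82 : Pl := sumD 10 (wds 8 2) ++ sumD (-4) (wds 8 4)

def bM84 : List Blk := [
  { M := [(1, ([], []))], N := [(1, ([], []))], n := 4,
    K := [[8, -2, 5, -15],
     [-2, 6, -3, 3],
     [5, -3, 6, -10],
     [-15, 3, -10, 29]],
    X := [[(1, (w_abab, w_abab)), (1, (w_baba, w_baba)), (-1, (w_aabb, w_aabb)), (-1, (w_bbaa, w_bbaa))],
      [(2, (w_abba, w_abba)), (-1, (w_aabb, w_aabb)), (-1, (w_bbaa, w_bbaa))],
      [(2, (w_baab, w_baab)), (-1, (w_aabb, w_aabb)), (-1, (w_bbaa, w_bbaa))],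
      [(2, (w_bbbb, w_bbbb)), (-1, (w_aabb, w_aabb)), (-1, (w_bbaa, w_bbaa))]],
    c := 4488, d := [561, 51, 4, 2024],
    l := [[8, -2, 5, -15],
     [0, 22, -7, -3],
     [0, 0, 51, -19],
     [0, 0, 0, 1]] },
  { M := [(1, ([], []))], N := [(1, ([], []))], n := 4,
    K := [[8, -2, 5, -15],
     [-2, 6, -3, 3],
     [5, -3, 6, -10],
     [-15, 3, -10, 29]],
    X := [[(1, (w_abab, w_abab)), (1, (w_baba, w_baba)), (-1, (w_aabb, w_aabb)), (-1, (w_bbaa, w_bbaa))],
      [(2, (w_abba, w_abba)), (-1, (w_aabb, w_aabb)), (-1, (w_bbaa, w_bbaa))],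
      [(2, (w_baab, w_baab)), (-1, (w_aabb, w_aabb)), (-1, (w_bbaa, w_bbaa))],
      [(2, (w_bbbb, w_bbbb)), (-1, (w_aabb, w_aabb)), (-1, (w_bbaa, w_bbaa))]],
    c := 4488, d := [561, 51, 4, 2024],
    l := [[8, -2, 5, -15],
     [0, 22, -7, -3],
     [0, 0, 51, -19],
     [0, 0, 0, 1]] },
  { M := [(1, ([], []))], N := [(1, ([], []))], n := 2,
    K := [[3, 4],
     [4, 12]],
    X := [[(1, (w_aabb, w_aabb)), (-1, (w_bbaa, w_bbaa))],
      [(1, (w_abab, w_abab)), (-1, (w_baba, w_baba))]],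
    c := 3, d := [1, 20],
    l := [[3, 4],
     [0, 1]] },
  { M := [(1, ([], []))], N := [(1, ([], []))], n := 2,
    K := [[3, 4],
     [4, 12]],
    X := [[(1, (w_aabb, w_aabb)), (-1, (w_bbaa, w_bbaa))],
      [(1, (w_abab, w_abab)), (-1, (w_baba, w_baba))]],
    c := 3, d := [1, 20],
    l := [[3, 4],
     [0, 1]] },
  { M := [(1, ([], []))], N := [(1, ([], []))], n := 1,
    K := [[40]],
    X := [[(1, (w_babb, w_babb)), (1, (w_bbab, w_bbab)), (-1, (w_abbb, w_abbb)), (-1, (w_bbba, w_bbba))]],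
    c := 1, d := [40],
    l := [[1]] },
  { M := [(1, ([], []))], N := [(1, ([], []))], n := 1,
    K := [[40]],
    X := [[(-1, (w_babb, w_babb)), (-1, (w_bbab, w_bbab)), (1, (w_abbb, w_abbb)), (1, (w_bbba, w_bbba))]],
    c := 1, d := [40],
    l := [[1]] },
  { M := [(1, ([], []))], N := [(1, ([], []))], n := 2,
    K := [[70, 72],
     [72, 94]],
    X := [[(1, (w_abbb, w_abbb)), (-1, (w_bbba, w_bbba))],
      [(1, (w_babb, w_babb)), (-1, (w_bbab, w_bbab))]],
    c := 35, d := [2, 698],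
    l := [[35, 36],
     [0, 1]] },
  { M := [(1, ([], []))], N := [(1, ([], []))], n := 2,
    K := [[70, 72],
     [72, 94]],
    X := [[(-1, (w_abbb, w_abbb)), (1, (w_bbba, w_bbba))],
      [(-1, (w_babb, w_babb)), (1, (w_bbab, w_bbab))]],
    c := 35, d := [2, 698],
    l := [[35, 36],
     [0, 1]] },
  { M := mP, N := mN, n := 2,
    K := [[1, 2],
     [2, 12]],
    X := [[(1, (w_abb, w_abb)), (1, (w_bba, w_bba))],
      [(1, (w_bab, w_bab))]],
    c := 1, d := [1, 8],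
    l := [[1, 2],
     [0, 1]] },
  { M := mN, N := mP, n := 2,
    K := [[1, 2],
     [2, 12]],
    X := [[(1, (w_abb, w_abb)), (1, (w_bba, w_bba))],
      [(1, (w_bab, w_bab))]],
    c := 1, d := [1, 8],
    l := [[1, 2],
     [0, 1]] },
  { M := mP, N := mN, n := 2,
    K := [[23, -31],
     [-31, 116]],
    X := [[(1, (w_abb, w_abb)), (-1, (w_bba, w_bba))],
      [(1, (w_bbb, w_bbb))]],
    c := 23, d := [1, 1707],
    l := [[23, -31],
     [0, 1]] },
  { M := mN, N := mP, n := 2,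
    K := [[23, -31],
     [-31, 116]],
    X := [[(1, (w_abb, w_abb)), (-1, (w_bba, w_bba))],
      [(-1, (w_bbb, w_bbb))]],
    c := 23, d := [1, 1707],
    l := [[23, -31],
     [0, 1]] }]

def hM84 : List (ℕ × ℕ × ℕ) := [(0, 0, 4), (0, 0, 4), (0, 0, 4), (0, 0, 4), (0, 0, 4), (0, 0, 4), (0, 0, 4), (0, 0, 4), (1, 1, 3), (1, 1, 3), (1, 1, 3), (1, 1, 3)]

/-- `4 S_4 - 10 S_6` -/
def tM84 : Pl := sumD 4 (wds 8 4) ++ sumD (-10) (wds 8 6)

def bM86 : List Blk := [
  { M := [(1, ([], []))], N := [(1, ([], []))], n := 1,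
    K := [[1]],
    X := [[(1, (w_babb, w_babb)), (1, (w_bbab, w_bbab)), (-1, (w_abbb, w_abbb)), (-1, (w_bbba, w_bbba))]],
    c := 1, d := [1],
    l := [[1]] },
  { M := [(1, ([], []))], N := [(1, ([], []))], n := 1,
    K := [[1]],
    X := [[(-1, (w_babb, w_babb)), (-1, (w_bbab, w_bbab)), (1, (w_abbb, w_abbb)), (1, (w_bbba, w_bbba))]],
    c := 1, d := [1],
    l := [[1]] },
  { M := [(1, ([], []))], N := [(1, ([], []))], n := 2,
    K := [[1, 2],
     [2, 7]],
    X := [[(1, (w_abbb, w_abbb)), (-1, (w_bbba, w_bbba))],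
      [(1, (w_babb, w_babb)), (-1, (w_bbab, w_bbab))]],
    c := 1, d := [1, 3],
    l := [[1, 2],
     [0, 1]] },
  { M := [(1, ([], []))], N := [(1, ([], []))], n := 2,
    K := [[1, 2],
     [2, 7]],
    X := [[(-1, (w_abbb, w_abbb)), (1, (w_bbba, w_bbba))],
      [(-1, (w_babb, w_babb)), (1, (w_bbab, w_bbab))]],
    c := 1, d := [1, 3],
    l := [[1, 2],
     [0, 1]] },
  { M := mP, N := mN, n := 1,
    K := [[14]],
    X := [[(1, (w_bbb, w_bbb))]],
    c := 1, d := [14],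
    l := [[1]] },
  { M := mN, N := mP, n := 1,
    K := [[14]],
    X := [[(-1, (w_bbb, w_bbb))]],
    c := 1, d := [14],
    l := [[1]] }]

def hM86 : List (ℕ × ℕ × ℕ) := [(0, 0, 4), (0, 0, 4), (0, 0, 4), (0, 0, 4), (1, 1, 3), (1, 1, 3)]

/-- `1 S_6 - 28 S_8` -/
def tM86 : Pl := sumD 1 (wds 8 6) ++ sumD (-28) (wds 8 8)

theorem okM82 : bM82.all Blk.ok = true := by decide +kernel
theorem homM82 : (List.zipWith (fun b s => b.hom 8 s) bM82 hM82).all id = true := by
  decide +kernel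
theorem lenM82 : bM82.length ≤ hM82.length := by decide
theorem runM82 : run tab8 64 (tM82 ++ smulL (-1) (sumB bM82)) 0 0 0 = true := by
  decide +kernel

theorem okM84 : bM84.all Blk.ok = true := by decide +kernel
theorem homM84 : (List.zipWith (fun b s => b.hom 8 s) bM84 hM84).all id = true := by
  decide +kernel
theorem lenM84 : bM84.length ≤ hM84.length := by decide
theorem runM84 : run tab8 64 (tM84 ++ smulL (-1) (sumB bM84)) 0 0 0 = true := by
  decide +kernel

theorem okM86 : bM86.all Blk.ok = true := by decide +kernel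
theorem homM86 : (List.zipWith (fun b s => b.hom 8 s) bM86 hM86).all id = true := by
  decide +kernel
theorem lenM86 : bM86.length ≤ hM86.length := by decide
theorem runM86 : run tab8 64 (tM86 ++ smulL (-1) (sumB bM86)) 0 0 0 = true := by
  decide +kernel

theorem runP8 : run tab8 64 (tPow mP 8 [(-1, 0), (-1, 1), (-1, 2), (-1, 3), (-1, 4), (-1, 5),
    (-1, 6), (-1, 7), (-1, 8)]) 0 0 0 = true := by
  decide +kernel

theorem runN8 : run tab8 64 (tPow mN 8 [(-1, 0), (1, 1), (-1, 2), (1, 3), (-1, 4), (1, 5),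
    (-1, 6), (1, 7), (-1, 8)]) 0 0 0 = true := by
  decide +kernel

/-- reality of the sums of traces -/
theorem chkR8 : (List.range 9).all (fun j => chk0 (adjL (sumL 1 (wds 8 j)) ++
    smulL (-1) (sumL 1 (wds 8 j)))) = true := by
  decide +kernel


end Pool.Agent.Lib_helper57.INL
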