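import Mathlib
import Pool.Agent.Lib_helper57.INL.St9

/-!
# Runs for `k = 9`, part 1
-/

set_option autoImplicit false
set_option linter.unusedSectionVars false
set_option linter.unusedSimpArgs false
set_option maxRecDepth 100000

namespace Pool.Agent.Lib_helper57.INL

theorem t9c0 : runE tab9 64 p9c0 q9c0 r9c0 (smulL 17640 (powL mP 9)) 0 0 0 = true := by
  decide +kernel

theorem t9w0 : runE tab9 64 p9w0 q9w0 r9w0 (prodL (-17640) (wds 9 0) (wds 9 0)) p9c0 q9c0 r9c0 = true := by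
  decide +kernel

theorem t9w1 : runE tab9 64 p9w1 q9w1 r9w1 (prodL (-1960) (wds 9 1) (wds 9 1)) p9w0 q9w0 r9w0 = true := by
  decide +kernel

theorem t9w2 : runE tab9 64 p9w2 q9w2 r9w2 (prodL (-490) (wds 9 2) (wds 9 2)) p9w1 q9w1 r9w1 = true := by
  decide +kernel

theorem t9w3a : runE tab9 64 p9w3a q9w3a r9w3a (prodL (-210) ((wds 8 3).map (false :: ·)) (wds 9 3)) p9w2 q9w2 r9w2 = true := by
  decide +kernel

theorem t9w3b : runE tab9 64 p9w3b q9w3b r9w3b (prodL (-210) ((wds 8 2).map (true :: ·)) (wds 9 3)) p9w3a q9w3a r9w3a = true := by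
  decide +kernel

theorem t9w4a : runE tab9 64 p9w4a q9w4a r9w4a (prodL (-140) ((wds 8 4).map (false :: ·)) (wds 9 4)) p9w3b q9w3b r9w3b = true := by
  decide +kernel

theorem t9w4b : runE tab9 64 p9w4b q9w4b r9w4b (prodL (-140) ((wds 8 3).map (true :: ·)) (wds 9 4)) p9w4a q9w4a r9w4a = true := by
  decide +kernel


end Pool.Agent.Lib_helper57.INL
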