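import Mathlib
import Pool.Agent.Lib_helper57.INL.St9

/-!
# Runs for `k = 9`, part 2
-/

set_option autoImplicit false
set_option linter.unusedSectionVars false
set_option linter.unusedSimpArgs false
set_option maxRecDepth 100000

namespace Pool.Agent.Lib_helper57.INL

theorem t9w5a : runE tab9 64 p9w5a q9w5a r9w5a (prodL (-140) ((wds 8 5).map (false :: ·)) (wds 9 5)) p9w4b q9w4b r9w4b = true := by
  decide +kernel

theorem t9w5b : runE tab9 64 p9w5b q9w5b r9w5b (prodL (-140) ((wds 8 4).map (true :: ·)) (wds 9 5)) p9w5a q9w5a r9w5a = true := by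
  decide +kernel

theorem t9w6a : runE tab9 64 p9w6a q9w6a r9w6a (prodL (-210) ((wds 8 6).map (false :: ·)) (wds 9 6)) p9w5b q9w5b r9w5b = true := by
  decide +kernel

theorem t9w6b : runE tab9 64 p9w6b q9w6b r9w6b (prodL (-210) ((wds 8 5).map (true :: ·)) (wds 9 6)) p9w6a q9w6a r9w6a = true := by
  decide +kernel

theorem t9w7 : runE tab9 64 p9w7 q9w7 r9w7 (prodL (-490) (wds 9 7) (wds 9 7)) p9w6b q9w6b r9w6b = true := by
  decide +kernel

theorem t9w8 : runE tab9 64 p9w8 q9w8 r9w8 (prodL (-1960) (wds 9 8) (wds 9 8)) p9w7 q9w7 r9w7 = true := by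
  decide +kernel

theorem t9w9 : runE tab9 64 p9w9 q9w9 r9w9 (prodL (-17640) (wds 9 9) (wds 9 9)) p9w8 q9w8 r9w8 = true := by
  decide +kernel


end Pool.Agent.Lib_helper57.INL
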