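import Mathlib
import Pool.Agent.Lib_helper57.INL.St9

/-!
# Runs for `k = 9`, part 3
-/

set_option autoImplicit false
set_option linter.unusedSectionVars false
set_option linter.unusedSimpArgs false
set_option maxRecDepth 100000

namespace Pool.Agent.Lib_helper57.INL

theorem t9g12 : runE tab9 64 p9g12 q9g12 r9g12 (gch b9 12) p9w9 q9w9 r9w9 = true := by
  decide +kernel

theorem t9g11 : runE tab9 64 p9g11 q9g11 r9g11 (gch b9 11) p9g12 q9g12 r9g12 = true := by
  decide +kernel

theorem t9g10 : runE tab9 64 p9g10 q9g10 r9g10 (gch b9 10) p9g11 q9g11 r9g11 = true := by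
  decide +kernel

theorem t9g9 : runE tab9 64 p9g9 q9g9 r9g9 (gch b9 9) p9g10 q9g10 r9g10 = true := by
  decide +kernel

theorem t9g8 : runE tab9 64 p9g8 q9g8 r9g8 (gch b9 8) p9g9 q9g9 r9g9 = true := by
  decide +kernel

theorem t9g7 : runE tab9 64 p9g7 q9g7 r9g7 (gch b9 7) p9g8 q9g8 r9g8 = true := by
  decide +kernel

theorem t9g6 : runE tab9 64 p9g6 q9g6 r9g6 (gch b9 6) p9g7 q9g7 r9g7 = true := by
  decide +kernel


end Pool.Agent.Lib_helper57.INL
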