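import Mathlib
import Pool.Agent.Lib_helper57.INL.St9

/-!
# Runs for `k = 9`, part 4
-/

set_option autoImplicit false
set_option linter.unusedSectionVars false
set_option linter.unusedSimpArgs false
set_option maxRecDepth 100000

namespace Pool.Agent.Lib_helper57.INL

theorem t9g5 : runE tab9 64 p9g5 q9g5 r9g5 (gch b9 5) p9g6 q9g6 r9g6 = true := by
  decide +kernel

theorem t9g4 : runE tab9 64 p9g4 q9g4 r9g4 (gch b9 4) p9g5 q9g5 r9g5 = true := by
  decide +kernel

theorem t9g3 : runE tab9 64 p9g3 q9g3 r9g3 (gch b9 3) p9g4 q9g4 r9g4 = true := by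
  decide +kernel

theorem t9g2 : runE tab9 64 p9g2 q9g2 r9g2 (gch b9 2) p9g3 q9g3 r9g3 = true := by
  decide +kernel

theorem t9g1 : runE tab9 64 p9g1 q9g1 r9g1 (gch b9 1) p9g2 q9g2 r9g2 = true := by
  decide +kernel

theorem t9g0 : runE tab9 64 p9g0 q9g0 r9g0 (gch b9 0) p9g1 q9g1 r9g1 = true := by
  decide +kernel


end Pool.Agent.Lib_helper57.INL
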