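import Mathlib
import Pool.Agent.Lib_helper57.INL.Gap9a
import Pool.Agent.Lib_helper57.INL.Gap9b
import Pool.Agent.Lib_helper57.INL.Gap9c
import Pool.Agent.Lib_helper57.INL.Gap9d

/-!
# The gap certificate for `k = 9`
-/

set_option autoImplicit false
set_option linter.unusedSectionVars false
set_option linter.unusedSimpArgs false
set_option maxRecDepth 100000

namespace Pool.Agent.Lib_helper57.INL

/-- the Weyl weights -/
def wl9 : List (ℤ × ℕ) := [(-17640, 0), (-1960, 1), (-490, 2), (-210, 3), (-140, 4), (-140, 5), (-210, 6), (-490, 7), (-1960, 8), (-17640, 9)]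

theorem run9 : run tab9 64 ((smulL 17640 (powL mP 9) ++ weylL 9 wl9) ++ gL b9 13) 0 0 0 =
    true := by
  rw [List.append_assoc, run_append t9c0]
  rw [show weylL 9 wl9 = prodL (-17640) (wds 9 0) (wds 9 0) ++ weylL 9 [(-1960, 1), (-490, 2), (-210, 3), (-140, 4), (-140, 5), (-210, 6), (-490, 7), (-1960, 8), (-17640, 9)] from rfl,
    List.append_assoc]
  rw [run_append t9w0]
  rw [show weylL 9 [(-1960, 1), (-490, 2), (-210, 3), (-140, 4), (-140, 5), (-210, 6), (-490, 7), (-1960, 8), (-17640, 9)] = prodL (-1960) (wds 9 1) (wds 9 1) ++ weylL 9 [(-490, 2), (-210, 3), (-140, 4), (-140, 5), (-210, 6), (-490, 7), (-1960, 8), (-17640, 9)] from rfl,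
    List.append_assoc]
  rw [run_append t9w1]
  rw [show weylL 9 [(-490, 2), (-210, 3), (-140, 4), (-140, 5), (-210, 6), (-490, 7), (-1960, 8), (-17640, 9)] = prodL (-490) (wds 9 2) (wds 9 2) ++ weylL 9 [(-210, 3), (-140, 4), (-140, 5), (-210, 6), (-490, 7), (-1960, 8), (-17640, 9)] from rfl,
    List.append_assoc]
  rw [run_append t9w2]
  rw [show weylL 9 [(-210, 3), (-140, 4), (-140, 5), (-210, 6), (-490, 7), (-1960, 8), (-17640, 9)] = prodL (-210) (wds 9 3) (wds 9 3) ++ weylL 9 [(-140, 4), (-140, 5), (-210, 6), (-490, 7), (-1960, 8), (-17640, 9)] from rfl,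
    List.append_assoc]
  rw [show prodL (-210) (wds 9 3) (wds 9 3) = prodL (-210) ((wds 8 3).map (false :: ·)) (wds 9 3) ++
      prodL (-210) ((wds 8 2).map (true :: ·)) (wds 9 3) from prodL_append _ _ _ _,
    List.append_assoc, run_append t9w3a, run_append t9w3b]
  rw [show weylL 9 [(-140, 4), (-140, 5), (-210, 6), (-490, 7), (-1960, 8), (-17640, 9)] = prodL (-140) (wds 9 4) (wds 9 4) ++ weylL 9 [(-140, 5), (-210, 6), (-490, 7), (-1960, 8), (-17640, 9)] from rfl,
    List.append_assoc]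
  rw [show prodL (-140) (wds 9 4) (wds 9 4) = prodL (-140) ((wds 8 4).map (false :: ·)) (wds 9 4) ++
      prodL (-140) ((wds 8 3).map (true :: ·)) (wds 9 4) from prodL_append _ _ _ _,
    List.append_assoc, run_append t9w4a, run_append t9w4b]
  rw [show weylL 9 [(-140, 5), (-210, 6), (-490, 7), (-1960, 8), (-17640, 9)] = prodL (-140) (wds 9 5) (wds 9 5) ++ weylL 9 [(-210, 6), (-490, 7), (-1960, 8), (-17640, 9)] from rfl,
    List.append_assoc]
  rw [show prodL (-140) (wds 9 5) (wds 9 5) = prodL (-140) ((wds 8 5).map (false :: ·)) (wds 9 5) ++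
      prodL (-140) ((wds 8 4).map (true :: ·)) (wds 9 5) from prodL_append _ _ _ _,
    List.append_assoc, run_append t9w5a, run_append t9w5b]
  rw [show weylL 9 [(-210, 6), (-490, 7), (-1960, 8), (-17640, 9)] = prodL (-210) (wds 9 6) (wds 9 6) ++ weylL 9 [(-490, 7), (-1960, 8), (-17640, 9)] from rfl,
    List.append_assoc]
  rw [show prodL (-210) (wds 9 6) (wds 9 6) = prodL (-210) ((wds 8 6).map (false :: ·)) (wds 9 6) ++
      prodL (-210) ((wds 8 5).map (true :: ·)) (wds 9 6) from prodL_append _ _ _ _,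
    List.append_assoc, run_append t9w6a, run_append t9w6b]
  rw [show weylL 9 [(-490, 7), (-1960, 8), (-17640, 9)] = prodL (-490) (wds 9 7) (wds 9 7) ++ weylL 9 [(-1960, 8), (-17640, 9)] from rfl,
    List.append_assoc]
  rw [run_append t9w7]
  rw [show weylL 9 [(-1960, 8), (-17640, 9)] = prodL (-1960) (wds 9 8) (wds 9 8) ++ weylL 9 [(-17640, 9)] from rfl,
    List.append_assoc]
  rw [run_append t9w8]
  rw [show weylL 9 [(-17640, 9)] = prodL (-17640) (wds 9 9) (wds 9 9) ++ weylL 9 [] from rfl,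
    List.append_assoc]
  rw [run_append t9w9]
  rw [show weylL 9 [] = [] from rfl, List.nil_append]
  rw [show gL b9 13 = gch b9 12 ++ gL b9 12 from rfl, run_append t9g12]
  rw [show gL b9 12 = gch b9 11 ++ gL b9 11 from rfl, run_append t9g11]
  rw [show gL b9 11 = gch b9 10 ++ gL b9 10 from rfl, run_append t9g10]
  rw [show gL b9 10 = gch b9 9 ++ gL b9 9 from rfl, run_append t9g9]
  rw [show gL b9 9 = gch b9 8 ++ gL b9 8 from rfl, run_append t9g8]
  rw [show gL b9 8 = gch b9 7 ++ gL b9 7 from rfl, run_append t9g7]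
  rw [show gL b9 7 = gch b9 6 ++ gL b9 6 from rfl, run_append t9g6]
  rw [show gL b9 6 = gch b9 5 ++ gL b9 5 from rfl, run_append t9g5]
  rw [show gL b9 5 = gch b9 4 ++ gL b9 4 from rfl, run_append t9g4]
  rw [show gL b9 4 = gch b9 3 ++ gL b9 3 from rfl, run_append t9g3]
  rw [show gL b9 3 = gch b9 2 ++ gL b9 2 from rfl, run_append t9g2]
  rw [show gL b9 2 = gch b9 1 ++ gL b9 1 from rfl, run_append t9g1]
  rw [show gL b9 1 = gch b9 0 ++ gL b9 0 from rfl, run_append t9g0]
  rw [show gL b9 0 = [] from rfl]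
  decide +kernel


end Pool.Agent.Lib_helper57.INL
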