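import Mathlib
import Pool.Agent.Lib_helper57.INL.Common
import Pool.Agent.Lib_helper57.INL.Gap9
import Pool.Agent.Lib_helper57.INL.Mom9

/-!
# `α = 9`
-/

set_option autoImplicit false
set_option linter.unusedSectionVars false
set_option linter.unusedSimpArgs false

open scoped Kronecker ComplexOrder

namespace Pool.Agent.Lib_helper57.INL

open Matrix Pool.Agent.Lib_helper98.Renyi

section

variable {n m : Type*} [Fintype n] [DecidableEq n] [Fintype m] [DecidableEq m]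
variable {A D : Matrix n n ℂ} {A' D' : Matrix m m ℂ}

theorem Gfun_nine (h : Adm A D) :
    Gfun 9 A D = Sj A D 9 2 + Sj A D 9 4 + Sj A D 9 6 + Sj A D 9 8 := by
  have h3 : (9 : ℝ) = ((9 : ℕ) : ℝ) := by norm_num
  rw [h3, Gfun_expand h (k := 9) (by norm_num) snd9 rfl runP9 runN9]
  simp only [List.map_cons, List.map_nil, List.sum_cons, List.sum_nil]
  push_cast
  ring

theorem gap9 (hA : A.IsHermitian) (hD : D.IsHermitian) (hA' : A'.IsHermitian)
    (hD' : D'.IsHermitian) (hM : (A ⊗ₖ A' + D ⊗ₖ D').PosSemidef) :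
    17640 * (Sj A D 9 0 * Sj A' D' 9 0) +
      1960 * (Sj A D 9 1 * Sj A' D' 9 1) +
      490 * (Sj A D 9 2 * Sj A' D' 9 2) +
      210 * (Sj A D 9 3 * Sj A' D' 9 3) +
      140 * (Sj A D 9 4 * Sj A' D' 9 4) +
      140 * (Sj A D 9 5 * Sj A' D' 9 5) +
      210 * (Sj A D 9 6 * Sj A' D' 9 6) +
      490 * (Sj A D 9 7 * Sj A' D' 9 7) +
      1960 * (Sj A D 9 8 * Sj A' D' 9 8) +
      17640 * (Sj A D 9 9 * Sj A' D' 9 9) ≤
    17640 * rt ((A ⊗ₖ A' + D ⊗ₖ D') ^ 9) := by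
  have h := gap_of_cert1 hA hD hA' hD' hM (k := 9) chkR9 snd9 rfl 17640 wl9 (by decide) okb9 homb9
    (by decide) run9
  simp only [wl9, List.map_cons, List.map_nil, List.sum_cons, List.sum_nil] at h
  push_cast at h
  linarith

theorem mu91 (h : Adm A D) : 64 * Sj A D 9 4 ≤ 224 * Sj A D 9 2 := by
  have h1 := mom_of_cert h snd9 okM91 homM91 lenM91 (by decide +kernel)
    (hom_append (hom_sumD _ 9 _) (hom_sumD _ 9 _)) (v := 224 * Sj A D 9 2 - 64 * Sj A D 9 4)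
    (by rw [mat_append', map_add, t_sumD, t_sumD, Sj, Sj]; push_cast; ring) runM91
  linarith

theorem mu92 (h : Adm A D) : 192 * Sj A D 9 6 ≤ 128 * Sj A D 9 4 := by
  have h1 := mom_of_cert h snd9 okM92 homM92 lenM92 (by decide +kernel)
    (hom_append (hom_sumD _ 9 _) (hom_sumD _ 9 _)) (v := 128 * Sj A D 9 4 - 192 * Sj A D 9 6)
    (by rw [mat_append', map_add, t_sumD, t_sumD, Sj, Sj]; push_cast; ring) runM92
  linarith

theorem mu93 (h : Adm A D) : 1792 * Sj A D 9 8 ≤ 64 * Sj A D 9 4 + 96 * Sj A D 9 6 := by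
  have h1 := mom_of_cert h snd9 okM93 homM93 lenM93 (by decide +kernel)
    (hom_append (hom_append (hom_sumD _ 9 _) (hom_sumD _ 9 _)) (hom_sumD _ 9 _))
    (v := 64 * Sj A D 9 4 + 96 * Sj A D 9 6 - 1792 * Sj A D 9 8)
    (by rw [mat_append', mat_append', map_add, map_add, t_sumD, t_sumD, t_sumD, Sj, Sj, Sj]
        push_cast; ring) runM93
  linarith

/-- **The key inequality for `α = 9`.** -/
theorem key_nine (h : Adm A D) (h' : Adm A' D') :
    Gfun 9 A D * Gfun 9 A' D' ≤ (2 ^ ((9 : ℝ) - 1) - 1) * Gfun 9 (A ⊗ₖ A') (D ⊗ₖ D') := by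
  have hk := h.kron h'
  have hp : (2 : ℝ) ^ ((9 : ℝ) - 1) = 256 := by
    rw [show (9 : ℝ) - 1 = ((8 : ℕ) : ℝ) by norm_num, Real.rpow_natCast]; norm_num
  have g1 := gap9 h.psd.1 h.herm h'.psd.1 h'.herm hk.add
  have hD'n : (-D').IsHermitian := h'.herm.neg
  have hn : (A ⊗ₖ A' + D ⊗ₖ (-D')).PosSemidef := by
    rw [kron_neg, ← sub_eq_add_neg]; exact hk.sub
  have g2 := gap9 h.psd.1 h.herm h'.psd.1 hD'n hn
  rw [kron_neg, ← sub_eq_add_neg] at g2
  simp only [Sj_neg] at g2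
  have h3 : (9 : ℝ) = ((9 : ℕ) : ℝ) := by norm_num
  have g3 : Gfun 9 (A ⊗ₖ A') (D ⊗ₖ D') = (rt ((A ⊗ₖ A' + D ⊗ₖ D') ^ 9) +
      rt ((A ⊗ₖ A' - D ⊗ₖ D') ^ 9)) / 2 - Sj A D 9 0 * Sj A' D' 9 0 := by
    rw [h3, Gfun_tensor h h' (by norm_num)]
  rw [g3, Gfun_nine h, Gfun_nine h', hp]
  have a1 := mu91 h
  have a2 := mu92 h
  have a3 := mu93 h
  have b1 := mu91 h'
  have b2 := mu92 h'
  have b3 := mu93 h'
  generalize rt ((A ⊗ₖ A' + D ⊗ₖ D') ^ 9) = P at *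
  generalize rt ((A ⊗ₖ A' - D ⊗ₖ D') ^ 9) = Q at *
  generalize Sj A D 9 0 = s0 at *
  generalize Sj A D 9 1 = s1 at *
  generalize Sj A D 9 2 = s2 at *
  generalize Sj A D 9 3 = s3 at *
  generalize Sj A D 9 4 = s4 at *
  generalize Sj A D 9 5 = s5 at *
  generalize Sj A D 9 6 = s6 at *
  generalize Sj A D 9 7 = s7 at *
  generalize Sj A D 9 8 = s8 at *
  generalize Sj A D 9 9 = s9 at *
  generalize Sj A' D' 9 0 = r0 at *
  generalize Sj A' D' 9 1 = r1 at *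
  generalize Sj A' D' 9 2 = r2 at *
  generalize Sj A' D' 9 3 = r3 at *
  generalize Sj A' D' 9 4 = r4 at *
  generalize Sj A' D' 9 5 = r5 at *
  generalize Sj A' D' 9 6 = r6 at *
  generalize Sj A' D' 9 7 = r7 at *
  generalize Sj A' D' 9 8 = r8 at *
  generalize Sj A' D' 9 9 = r9 at *
  have c1 : 0 ≤ s2 / 36 - s4 / 126 := by linarith
  have c2 : 0 ≤ s4 / 126 - s6 / 84 := by linarith
  have c3 : 0 ≤ (s4 / 126 + s6 / 84) / 2 - s8 / 9 := by linarith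
  have d1 : 0 ≤ r2 / 36 - r4 / 126 := by linarith
  have d2 : 0 ≤ r4 / 126 - r6 / 84 := by linarith
  have d3 : 0 ≤ (r4 / 126 + r6 / 84) / 2 - r8 / 9 := by linarith
  norm_num at g1 g2
  have key : 255 * (s2 * r2 / 36 + s4 * r4 / 126 + s6 * r6 / 84 + s8 * r8 / 9) -
      (s2 + s4 + s6 + s8) * (r2 + r4 + r6 + r8) =
      7884 * ((s2 / 36 - s4 / 126) * (r2 / 36 - r4 / 126)) +
      3186 * ((s2 / 36 - s4 / 126) * (r4 / 126 - r6 / 84)) +
      324 * ((s2 / 36 - s4 / 126) * ((r4 / 126 + r6 / 84) / 2 - r8 / 9)) +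
      3186 * ((s4 / 126 - s6 / 84) * (r2 / 36 - r4 / 126)) +
      28323 / 2 * ((s4 / 126 - s6 / 84) * (r4 / 126 - r6 / 84)) +
      351 * ((s4 / 126 - s6 / 84) * ((r4 / 126 + r6 / 84) / 2 - r8 / 9)) +
      324 * (((s4 / 126 + s6 / 84) / 2 - s8 / 9) * (r2 / 36 - r4 / 126)) +
      351 * (((s4 / 126 + s6 / 84) / 2 - s8 / 9) * (r4 / 126 - r6 / 84)) +
      2214 * (((s4 / 126 + s6 / 84) / 2 - s8 / 9) * ((r4 / 126 + r6 / 84) / 2 - r8 / 9)) := by
    ring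
  have e11 := mul_nonneg c1 d1
  have e12 := mul_nonneg c1 d2
  have e13 := mul_nonneg c1 d3
  have e21 := mul_nonneg c2 d1
  have e22 := mul_nonneg c2 d2
  have e23 := mul_nonneg c2 d3
  have e31 := mul_nonneg c3 d1
  have e32 := mul_nonneg c3 d2
  have e33 := mul_nonneg c3 d3
  linarith [g1, g2, e11, e12, e13, e21, e22, e23, e31, e32, e33, key]

end

section final

variable {b₁ b₂ : Type*} [Fintype b₁] [DecidableEq b₁] [Fintype b₂] [DecidableEq b₂]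

/-- **Theorem.** The inequality `H ≤ F` for `α = 9` and all pairs of quantum states. -/
theorem alpha_nine (σ₁ : Fin 2 → Matrix b₁ b₁ ℂ) (σ₂ : Fin 2 → Matrix b₂ b₂ ℂ)
    (h₁ : ∀ x, IsDensity (σ₁ x)) (h₂ : ∀ x, IsDensity (σ₂ x)) :
    Hsum 9 σ₁ σ₂ ≤ Fval 9 σ₁ σ₂ :=
  Hsum_le_Fval h₁ h₂ (by norm_num) (by norm_num)
    (key_nine (adm_of_density h₁ (by norm_num)) (adm_of_density h₂ (by norm_num)))

end final

end Pool.Agent.Lib_helper57.INL
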